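import Pool.Agent.Q330.TU.Shadow
set_option autoImplicit false

/-!
# The average number of vertices visited by a random shadow path
-/

namespace Pool.Agent.Q330.TU

open Matrix Finset

variable {ι : Type} [Fintype ι] {n : ℕ} {a : ι → Fin n → ℤ} {b : ι → ℝ} {Δ : ℕ}
  {x y z v : Fin n → ℝ}

theorem verts_finite (a : ι → Fin n → ℤ) (b : ι → ℝ) : {x | Vert a b x}.Finite := by
  classical
  refine Set.Finite.of_finite_image (f := tg a b) (Set.toFinite _) ?_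
  intro x hx y hy hxy
  refine (sub_eq_zero.1 (hx.ker (y - x) fun i hi => ?_)).symm
  have h1 : i ∈ tg a b y := by rw [← hxy]; exact hi
  rw [dotProduct_sub, mem_tg.1 h1, mem_tg.1 hi, sub_self]

/-- the finite set of vertices -/
noncomputable def VV (a : ι → Fin n → ℤ) (b : ι → ℝ) : Finset (Fin n → ℝ) :=
  (verts_finite a b).toFinset

theorem mem_VV : x ∈ VV a b ↔ Vert a b x := by simp [VV]

/-- `κ = n Δ` -/
def kap (n Δ : ℕ) : ℕ := n * Δ

/-- the side of the cube -/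
def side (n Δ : ℕ) : ℕ := 2 * n * kap n Δ

/-- the bound for the entries of the auxiliary objective -/
def DD (n Δ : ℕ) : ℕ := kap n Δ * kap n Δ * side n Δ + side n Δ

/-- the number of steps of time for a factor two -/
def HH (n Δ : ℕ) : ℕ := 2 * (n * (DD n Δ * Δ))

/-- the auxiliary objective -/
def aux (Δ : ℕ) (q X : Fin n → ℤ) : Fin n → ℤ := fun j => kap n Δ * side n Δ * q j + X j

/-- the random integer vectors -/
noncomputable def cube (n Δ : ℕ) : Finset (Fin n → ℤ) :=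
  Fintype.piFinset fun _ : Fin n => Finset.Ico (0 : ℤ) (side n Δ)

/-- `x` maximises `c + μ d` -/
def MaxAt (a : ι → Fin n → ℤ) (b : ι → ℝ) (c d : Fin n → ℤ) (μ : ℝ) (x : Fin n → ℝ) : Prop :=
  ∀ z ∈ Ply a b, (rv c + μ • rv d) ⬝ᵥ z ≤ (rv c + μ • rv d) ⬝ᵥ x

/-- the vertex `x` is visited -/
def Visited (a : ι → Fin n → ℤ) (b : ι → ℝ) (Δ : ℕ) (c d : Fin n → ℤ) (C : ℕ)
    (x : Fin n → ℝ) : Prop :=
  Vert a b x ∧ ∃ μ : ℝ, 1 / (HH n Δ : ℝ) ≤ μ ∧ μ ≤ C ∧ MaxAt a b c d μ x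

theorem one_le_kap (hn : 1 ≤ n) (hΔ : 1 ≤ Δ) : 1 ≤ kap n Δ := Nat.mul_pos hn hΔ

theorem one_le_side (hn : 1 ≤ n) (hΔ : 1 ≤ Δ) : 1 ≤ side n Δ :=
  Nat.mul_pos (by omega) (one_le_kap hn hΔ)

theorem one_le_HH (hn : 1 ≤ n) (hΔ : 1 ≤ Δ) : 1 ≤ HH n Δ := by
  have h1 : 1 ≤ DD n Δ := by
    have := one_le_side hn hΔ
    unfold DD
    omega
  exact Nat.mul_pos (by norm_num) (Nat.mul_pos hn (Nat.mul_pos h1 hΔ))

theorem aux_le {q X : Fin n → ℤ} (hq : ∀ j, |q j| ≤ n * Δ) (hX : X ∈ cube n Δ) (j : Fin n) :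
    |aux Δ q X j| ≤ (DD n Δ : ℤ) := by
  unfold cube at hX
  rw [Fintype.mem_piFinset] at hX
  have h1 := Finset.mem_Ico.1 (hX j)
  have h2 : |X j| ≤ side n Δ := by rw [abs_of_nonneg h1.1]; exact h1.2.le
  unfold aux DD
  push_cast
  calc |(kap n Δ : ℤ) * side n Δ * q j + X j|
      ≤ |(kap n Δ : ℤ) * side n Δ * q j| + |X j| := abs_add_le _ _
    _ = (kap n Δ : ℤ) * side n Δ * |q j| + |X j| := by
        rw [abs_mul, abs_of_nonneg (by positivity : (0 : ℤ) ≤ (kap n Δ : ℤ) * side n Δ)]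
    _ ≤ (kap n Δ : ℤ) * side n Δ * kap n Δ + side n Δ := by
        refine add_le_add (mul_le_mul_of_nonneg_left ?_ (by positivity)) h2
        have := hq j
        unfold kap
        push_cast
        exact this
    _ = _ := by ring

/-- the first time -/
theorem maxAt_start (hΔ : MinorsLe a Δ) (hv : Vert a b v) {q : Fin n → ℤ}
    (hq2 : ∀ g ∈ Ed Δ a b v, q ⬝ᵥ g ≤ -1) {X : Fin n → ℤ} (hX : X ∈ cube n Δ) {c : Fin n → ℤ}
    {C : ℕ} (hc : ∀ j, |c j| ≤ C) : MaxAt a b c (aux Δ q X) C v := by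
  refine max_of_ed hΔ hv fun g hg => ?_
  unfold cube at hX
  rw [Fintype.mem_piFinset] at hX
  have hX' : ∀ j, |rv X j| ≤ ((side n Δ : ℝ) - 1) := fun j => by
    have h1 := Finset.mem_Ico.1 (hX j)
    have h2 : |X j| ≤ side n Δ - 1 := by rw [abs_of_nonneg h1.1]; omega
    unfold rv
    exact_mod_cast h2
  have hc' : ∀ j, |rv c j| ≤ (C : ℝ) := fun j => by
    have := hc j
    unfold rv
    exact_mod_cast this
  have e1 := abs_dot_le hX' (ed_abs hg)
  have e2 := abs_dot_le hc' (ed_abs hg)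
  have e3 := le_abs_self (rv X ⬝ᵥ rv g)
  have e4 := le_abs_self (rv c ⬝ᵥ rv g)
  have e5 : rv (aux Δ q X) ⬝ᵥ rv g = (kap n Δ : ℝ) * side n Δ * (rv q ⬝ᵥ rv g) + rv X ⬝ᵥ rv g := by
    unfold dotProduct
    rw [Finset.mul_sum, ← Finset.sum_add_distrib]
    refine Finset.sum_congr rfl fun j _ => ?_
    simp only [rv, aux]
    push_cast
    ring
  have e6 : rv q ⬝ᵥ rv g ≤ -1 := by
    rw [rv_dot]
    exact_mod_cast hq2 g hg
  have e7 : (kap n Δ : ℝ) * side n Δ * (rv q ⬝ᵥ rv g) ≤ (kap n Δ : ℝ) * side n Δ * (-1) :=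
    mul_le_mul_of_nonneg_left e6 (by positivity)
  rw [add_dotProduct, smul_dotProduct, smul_eq_mul, e5]
  have hC : (0 : ℝ) ≤ C := Nat.cast_nonneg C
  have e8 : (kap n Δ : ℝ) = n * Δ := by unfold kap; push_cast; ring
  have e9 : (C : ℝ) * ((kap n Δ : ℝ) * side n Δ * (rv q ⬝ᵥ rv g) + rv X ⬝ᵥ rv g) ≤
      C * ((kap n Δ : ℝ) * side n Δ * (-1) + n * ((side n Δ - 1) * Δ)) :=
    mul_le_mul_of_nonneg_left (by linarith) hC
  have e10 : (C : ℝ) * ((kap n Δ : ℝ) * side n Δ * (-1) + n * ((side n Δ - 1) * Δ)) =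
      - (n * (C * Δ)) := by
    rw [e8]; ring
  linarith

/-- a later time, after a shift of the auxiliary objective, is deep in the normal cone -/
theorem deep_shift (hn : 1 ≤ n) (hΔ1 : 1 ≤ Δ) {c d q : Fin n → ℤ}
    (hd : ∀ j, |d j| ≤ (DD n Δ : ℤ)) (hq2 : ∀ g ∈ Ed Δ a b x, q ⬝ᵥ g ≤ -1) {μ ν : ℝ}
    (hμ : 0 < μ) (hx : Vert a b x) (hm : MaxAt a b c d μ x) (h1 : μ ≤ ν)
    (h2 : ν ≤ (1 + 1 / (HH n Δ : ℝ)) * μ) :
    ∀ g ∈ Ed Δ a b x, (rv c + ν • rv (fun j => d j + q j)) ⬝ᵥ rv g ≤ -(ν / 2) := by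
  intro g hg
  have e1 : rv (fun j => d j + q j) = rv d + rv q := by
    funext j; simp [rv]
  have e2 := ed_le hx.mem hm hg
  rw [add_dotProduct, smul_dotProduct, smul_eq_mul] at e2
  rw [e1, add_dotProduct, smul_dotProduct, add_dotProduct, smul_eq_mul]
  have e3 : rv q ⬝ᵥ rv g ≤ -1 := by
    rw [rv_dot]
    exact_mod_cast hq2 g hg
  have e4 := abs_dot_le (p := rv d) (g := rv g) (ρ := DD n Δ) (δ := Δ) (fun j => by
    have := hd j
    unfold rv
    exact_mod_cast this) (ed_abs hg)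
  have e5 := le_abs_self (rv d ⬝ᵥ rv g)
  have hH : (1 : ℝ) ≤ HH n Δ := by exact_mod_cast one_le_HH hn hΔ1
  have e6 : (HH n Δ : ℝ) = 2 * (n * ((DD n Δ : ℝ) * Δ)) := by unfold HH; push_cast; ring
  have e7 : (ν - μ) * (rv d ⬝ᵥ rv g) ≤ (ν - μ) * (HH n Δ / 2) :=
    mul_le_mul_of_nonneg_left (by rw [e6]; linarith) (by linarith)
  have e8 : (ν - μ) * (HH n Δ / 2) ≤ ν / 2 := by
    have h3 : ν - μ ≤ μ / HH n Δ := by
      have : (1 + 1 / (HH n Δ : ℝ)) * μ = μ + μ / HH n Δ := by ring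
      linarith
    calc (ν - μ) * (HH n Δ / 2) ≤ (μ / HH n Δ) * (HH n Δ / 2) :=
          mul_le_mul_of_nonneg_right h3 (by linarith)
      _ = μ / 2 := by field_simp
      _ ≤ ν / 2 := by linarith
  have hν : 0 ≤ ν := by linarith
  have e9 : ν * (rv q ⬝ᵥ rv g) ≤ ν * (-1) := mul_le_mul_of_nonneg_left e3 hν
  have e10 : rv c ⬝ᵥ rv g + ν * (rv d ⬝ᵥ rv g + rv q ⬝ᵥ rv g) =
      (rv c ⬝ᵥ rv g + μ * (rv d ⬝ᵥ rv g)) + (ν - μ) * (rv d ⬝ᵥ rv g) + ν * (rv q ⬝ᵥ rv g) := by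
    ring
  rw [e10]
  linarith

/-- the times -/
noncomputable def tim (n Δ k : ℕ) : ℝ := 1 / (HH n Δ : ℝ) * (1 + 1 / (HH n Δ : ℝ)) ^ (k + 1)

theorem exists_tim (hn : 1 ≤ n) (hΔ1 : 1 ≤ Δ) {C L : ℕ} (hL : C * HH n Δ ≤ 2 ^ L) {μ : ℝ}
    (h1 : 1 / (HH n Δ : ℝ) ≤ μ) (h2 : μ ≤ C) : ∃ k < HH n Δ * L + 1,
      μ ≤ tim n Δ k ∧ tim n Δ k ≤ (1 + 1 / (HH n Δ : ℝ)) * μ := by
  have hH : (1 : ℝ) ≤ HH n Δ := by exact_mod_cast one_le_HH hn hΔ1
  set H : ℝ := ((HH n Δ : ℕ) : ℝ) with hHd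
  have hH0 : 0 < H := by linarith
  have hbase : 1 < 1 + 1 / H := by
    have : 0 < 1 / H := by positivity
    linarith
  have hy : 1 ≤ μ * H := by
    rw [div_le_iff₀ hH0] at h1
    exact h1
  obtain ⟨k, hk1, hk2⟩ := exists_nat_pow_near hy hbase
  refine ⟨k, ?_, ?_, ?_⟩
  · -- the number of steps
    by_contra hcon
    push Not at hcon
    have h3 : (2 : ℝ) ^ L ≤ (1 + 1 / H) ^ (HH n Δ * L) := by
      rw [pow_mul]
      refine pow_le_pow_left₀ (by norm_num) ?_ L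
      have hp : 0 < 1 / H := by positivity
      have := one_add_mul_le_pow (a := 1 / H) (by linarith) (HH n Δ)
      calc (2 : ℝ) = 1 + (HH n Δ : ℝ) * (1 / H) := by
            rw [← hHd, mul_one_div_cancel hH0.ne']; norm_num
        _ ≤ _ := this
    have h4 : (1 + 1 / H) ^ (HH n Δ * L) < (1 + 1 / H) ^ k :=
      pow_lt_pow_right₀ hbase (by omega)
    have h5 : μ * H ≤ 2 ^ L := by
      calc μ * H ≤ C * H := mul_le_mul_of_nonneg_right h2 hH0.le
        _ ≤ 2 ^ L := by rw [hHd]; exact_mod_cast hL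
    linarith
  · unfold tim
    rw [← hHd, one_div_mul_eq_div, le_div_iff₀ hH0]
    exact hk2.le
  · unfold tim
    rw [← hHd, pow_succ, one_div_mul_eq_div, div_le_iff₀ hH0]
    have := mul_le_mul_of_nonneg_right hk1 (by linarith : (0 : ℝ) ≤ 1 + 1 / H)
    linarith

theorem tim_pos (hn : 1 ≤ n) (hΔ1 : 1 ≤ Δ) (k : ℕ) : 0 < tim n Δ k := by
  have hH : (1 : ℝ) ≤ HH n Δ := by exact_mod_cast one_le_HH hn hΔ1
  unfold tim
  positivity

open Classical in
/-- the visited vertices -/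
noncomputable def vis (a : ι → Fin n → ℤ) (b : ι → ℝ) (Δ : ℕ) (c d : Fin n → ℤ) (C : ℕ) :
    Finset (Fin n → ℝ) := (VV a b).filter (Visited a b Δ c d C)

theorem mem_vis {c d : Fin n → ℤ} {C : ℕ} : x ∈ vis a b Δ c d C ↔ Visited a b Δ c d C x := by
  classical
  rw [vis, Finset.mem_filter, mem_VV]
  exact ⟨fun h => h.2, fun h => ⟨h.1, h⟩⟩

theorem succ_pow_le {n : ℕ} (hn : 1 ≤ n) : (n + 1) ^ n ≤ 3 * n ^ n := by
  have hn0 : (0 : ℝ) < n := by exact_mod_cast hn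
  have h1 : (1 + 1 / (n : ℝ)) ^ n ≤ 3 := by
    have h2 := Real.add_one_le_exp (1 / (n : ℝ))
    calc (1 + 1 / (n : ℝ)) ^ n ≤ (Real.exp (1 / n)) ^ n :=
          pow_le_pow_left₀ (by positivity) (by linarith) n
      _ = Real.exp 1 := by
          rw [← Real.exp_nat_mul, mul_one_div_cancel hn0.ne']
      _ ≤ 3 := by have := Real.exp_one_lt_d9; linarith
  have h3 : ((n : ℝ) + 1) ^ n ≤ 3 * (n : ℝ) ^ n := by
    calc ((n : ℝ) + 1) ^ n = ((n : ℝ) * (1 + 1 / n)) ^ n := by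
          congr 1; field_simp
      _ = (n : ℝ) ^ n * (1 + 1 / (n : ℝ)) ^ n := mul_pow _ _ _
      _ ≤ (n : ℝ) ^ n * 3 := mul_le_mul_of_nonneg_left h1 (by positivity)
      _ = _ := by ring
  exact_mod_cast h3

/-- **The average number of visited vertices.** -/
theorem sum_vis_le (hΔ : MinorsLe a Δ) (hn : 1 ≤ n) (hΔ1 : 1 ≤ Δ) {q : Fin n → ℤ}
    (hq1 : ∀ j, |q j| ≤ n * Δ) {c : Fin n → ℤ} {C L : ℕ} (hL : C * HH n Δ ≤ 2 ^ L) :
    ∑ X ∈ cube n Δ, (vis a b Δ c (aux Δ q X) C).card ≤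
      (3 * (HH n Δ * L + 1)) * (cube n Δ).card := by
  classical
  -- the vectors `q x`
  have hqx : ∀ x : Fin n → ℝ, ∃ p : Fin n → ℤ, Vert a b x → (∀ j, |p j| ≤ n * Δ) ∧
      ∀ g ∈ Ed Δ a b x, p ⬝ᵥ g ≤ -1 := fun x => by
    by_cases h : Vert a b x
    · obtain ⟨p, hp⟩ := exists_q hΔ h
      exact ⟨p, fun _ => hp⟩
    · exact ⟨0, fun h' => absurd h' h⟩
  choose p hp using hqx
  set big : Finset (Fin n → ℤ) :=
    Fintype.piFinset fun _ : Fin n => Finset.Ico (-(kap n Δ : ℤ)) (side n Δ + kap n Δ) with hbig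
  have hcardbig : big.card = (side n Δ + 2 * kap n Δ) ^ n := by
    rw [hbig, Fintype.card_piFinset]
    simp only [Int.card_Ico, Finset.prod_const, Finset.card_univ, Fintype.card_fin]
    congr 1
    omega
  have hcardcube : (cube n Δ).card = (side n Δ) ^ n := by
    rw [cube, Fintype.card_piFinset]
    simp
  have hbc : big.card ≤ 3 * (cube n Δ).card := by
    rw [hcardbig, hcardcube]
    have e1 : side n Δ + 2 * kap n Δ = (2 * kap n Δ) * (n + 1) := by unfold side; ring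
    have e2 : side n Δ = (2 * kap n Δ) * n := by unfold side; ring
    rw [e1, e2, mul_pow (2 * kap n Δ) (n + 1), mul_pow (2 * kap n Δ) n]
    calc (2 * kap n Δ) ^ n * (n + 1) ^ n ≤ (2 * kap n Δ) ^ n * (3 * n ^ n) :=
          Nat.mul_le_mul_left _ (succ_pow_le hn)
      _ = _ := by ring
  -- the times
  have htime : ∀ (X : Fin n → ℤ) (x : Fin n → ℝ), ∃ k : ℕ, x ∈ vis a b Δ c (aux Δ q X) C →
      X ∈ cube n Δ → k < HH n Δ * L + 1 ∧
      ∀ g ∈ Ed Δ a b x, (rv c + tim n Δ k • rv (aux Δ q (fun j => X j + p x j))) ⬝ᵥ rv g ≤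
        -(tim n Δ k / 2) := by
    intro X x
    by_cases h : x ∈ vis a b Δ c (aux Δ q X) C
    · by_cases hX : X ∈ cube n Δ
      · obtain ⟨hx, μ, h1, h2, h3⟩ := mem_vis.1 h
        obtain ⟨k, hk, h4, h5⟩ := exists_tim hn hΔ1 hL h1 h2
        refine ⟨k, fun _ _ => ⟨hk, ?_⟩⟩
        have hμ : 0 < μ := by
          have hH : (1 : ℝ) ≤ HH n Δ := by exact_mod_cast one_le_HH hn hΔ1
          have : 0 < 1 / (HH n Δ : ℝ) := by positivity
          linarith
        have h6 := deep_shift hn hΔ1 (aux_le hq1 hX) (hp x hx).2 hμ hx h3 h4 h5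
        have e1 : (fun j => aux Δ q X j + p x j) = aux Δ q (fun j => X j + p x j) := by
          funext j
          unfold aux
          ring
        rw [e1] at h6
        exact h6
      · exact ⟨0, fun _ h' => absurd h' hX⟩
    · exact ⟨0, fun h' => absurd h' h⟩
  choose kf hkf using htime
  rw [← Finset.card_sigma]
  have h1 : ((cube n Δ).sigma fun X => vis a b Δ c (aux Δ q X) C).card ≤
      (Finset.range (HH n Δ * L + 1) ×ˢ big).card := by
    refine Finset.card_le_card_of_injOn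
      (fun s => (kf s.1 s.2, fun j => s.1 j + p s.2 j)) ?_ ?_
    · rintro ⟨X, x⟩ hs
      rw [Finset.mem_coe, Finset.mem_sigma] at hs
      obtain ⟨hX, hx⟩ := hs
      simp only at hX hx
      have hvx := (mem_vis.1 hx).1
      rw [Finset.mem_coe, Finset.mem_product]
      refine ⟨Finset.mem_range.2 (hkf X x hx hX).1, ?_⟩
      simp only [hbig, Fintype.mem_piFinset]
      intro j
      unfold cube at hX
      rw [Fintype.mem_piFinset] at hX
      have e1 := Finset.mem_Ico.1 (hX j)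
      have e2 := abs_le.1 ((hp x hvx).1 j)
      rw [Finset.mem_Ico]
      unfold kap
      push_cast
      constructor <;> [linarith [e1.1, e2.1]; linarith [e1.2, e2.2]]
    · rintro ⟨X, x⟩ hs ⟨Y, y⟩ ht hst
      rw [Finset.mem_coe, Finset.mem_sigma] at hs ht
      obtain ⟨hX, hx⟩ := hs
      obtain ⟨hY, hy⟩ := ht
      simp only at hX hx hY hy hst
      rw [Prod.mk.injEq] at hst
      obtain ⟨e1, e2⟩ := hst
      have hvx := (mem_vis.1 hx).1
      have hvy := (mem_vis.1 hy).1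
      obtain ⟨-, f1⟩ := hkf X x hx hX
      obtain ⟨-, f2⟩ := hkf Y y hy hY
      rw [← e1, ← e2] at f2
      set P := rv c + tim n Δ (kf X x) • rv (aux Δ q fun j => X j + p x j) with hP
      have hδ : 0 < tim n Δ (kf X x) / 2 := by
        have := tim_pos hn hΔ1 (kf X x)
        positivity
      have hxy : x = y := by
        rcases le_total (P ⬝ᵥ x) (P ⬝ᵥ y) with h | h
        · exact (deep_unique hΔ hvx hδ f1 hvy.mem h).symm
        · exact deep_unique hΔ hvy hδ f2 hvx.mem h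
      subst hxy
      have hXY : X = Y := by
        funext j
        have := congrFun e2 j
        simpa using this
      subst hXY
      rfl
  refine h1.trans ?_
  rw [Finset.card_product, Finset.card_range]
  calc (HH n Δ * L + 1) * big.card ≤ (HH n Δ * L + 1) * (3 * (cube n Δ).card) :=
        Nat.mul_le_mul_left _ hbc
    _ = _ := by ring

theorem cube_nonempty (hn : 1 ≤ n) (hΔ1 : 1 ≤ Δ) : (cube n Δ).Nonempty := by
  refine ⟨fun _ => 0, ?_⟩
  unfold cube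
  rw [Fintype.mem_piFinset]
  intro j
  rw [Finset.mem_Ico]
  refine ⟨le_rfl, ?_⟩
  exact_mod_cast one_le_side hn hΔ1

end Pool.Agent.Q330.TU
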