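import Mathlib
set_option autoImplicit false

/-!
# Extreme directions of polyhedral cones

Real version: the maximality argument. Integer version: if the minors of the rows are at most `Δ`,
extreme directions are spanned by integer vectors with entries at most `Δ`.
-/

namespace Pool.Agent.Q330.TU

open Matrix Finset

variable {ι : Type} {n : ℕ}

/-- the direction is determined by the rows of `T` on which it vanishes -/
def Extr (r : ι → Fin n → ℝ) (T : Finset ι) (g : Fin n → ℝ) : Prop :=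
  ∀ h : Fin n → ℝ, (∀ i ∈ T, r i ⬝ᵥ g = 0 → r i ⬝ᵥ h = 0) → ∃ s : ℝ, h = s • g

/-- moving until a new row becomes tight -/
theorem exists_block {r : ι → Fin n → ℝ} {T : Finset ι} {g h : Fin n → ℝ}
    (hg : ∀ i ∈ T, r i ⬝ᵥ g ≤ 0) (h0 : ∀ i ∈ T, r i ⬝ᵥ g = 0 → r i ⬝ᵥ h = 0)
    (hex : ∃ i ∈ T, 0 < r i ⬝ᵥ h) :
    ∃ t : ℝ, 0 < t ∧ (∀ i ∈ T, r i ⬝ᵥ (g + t • h) ≤ 0) ∧
      ∃ i ∈ T, r i ⬝ᵥ g < 0 ∧ r i ⬝ᵥ (g + t • h) = 0 := by
  classical
  set U := T.filter fun i => 0 < r i ⬝ᵥ h with hU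
  obtain ⟨i0, hi0, hi0'⟩ := hex
  obtain ⟨i1, hi1, hmin⟩ := Finset.exists_min_image U (fun i => (-(r i ⬝ᵥ g)) / (r i ⬝ᵥ h))
    ⟨i0, by simp [hU, hi0, hi0']⟩
  rw [hU, Finset.mem_filter] at hi1
  have h1 : r i1 ⬝ᵥ g < 0 := by
    refine lt_of_le_of_ne (hg i1 hi1.1) fun h => ?_
    have := h0 i1 hi1.1 h
    linarith [hi1.2]
  have ht : 0 < (-(r i1 ⬝ᵥ g)) / (r i1 ⬝ᵥ h) := div_pos (by linarith) hi1.2
  refine ⟨_, ht, fun i hi => ?_, i1, hi1.1, h1, ?_⟩
  · rw [dotProduct_add, dotProduct_smul, smul_eq_mul]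
    rcases le_or_gt (r i ⬝ᵥ h) 0 with h2 | h2
    · have := hg i hi
      have := mul_nonpos_of_nonneg_of_nonpos ht.le h2
      linarith
    · have h3 := hmin i (by simp [hU, hi, h2])
      have h4 := mul_le_mul_of_nonneg_right h3 h2.le
      rw [div_mul_cancel₀ (-(r i ⬝ᵥ g)) h2.ne'] at h4
      linarith
  · rw [dotProduct_add, dotProduct_smul, smul_eq_mul, div_mul_cancel₀ _ hi1.2.ne']
    ring

/-- **Extreme directions.** -/
theorem exists_extr {r : ι → Fin n → ℝ} {T : Finset ι}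
    (hT : ∀ h : Fin n → ℝ, (∀ i ∈ T, r i ⬝ᵥ h = 0) → h = 0) {p h : Fin n → ℝ}
    (hh : ∀ i ∈ T, r i ⬝ᵥ h ≤ 0) (hp : 0 < p ⬝ᵥ h) :
    ∃ g : Fin n → ℝ, (∀ i ∈ T, r i ⬝ᵥ g ≤ 0) ∧ 0 < p ⬝ᵥ g ∧ Extr r T g := by
  classical
  -- choose `g` with a maximal number of tight rows
  set S : Set ℕ := {k | ∃ g : Fin n → ℝ, (∀ i ∈ T, r i ⬝ᵥ g ≤ 0) ∧ 0 < p ⬝ᵥ g ∧
    (T.filter fun i => r i ⬝ᵥ g = 0).card = k} with hS
  have hne : S.Nonempty := ⟨_, h, hh, hp, rfl⟩
  have hbd : BddAbove S := ⟨T.card, by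
    rintro k ⟨g, -, -, rfl⟩
    exact Finset.card_filter_le _ _⟩
  obtain ⟨g, hg, hpg, hk⟩ := Nat.sSup_mem hne hbd
  refine ⟨g, hg, hpg, ?_⟩
  by_contra hcon
  unfold Extr at hcon
  push Not at hcon
  obtain ⟨x, hx, hx'⟩ := hcon
  -- make it orthogonal to `p`
  set y := x - ((p ⬝ᵥ x) / (p ⬝ᵥ g)) • g with hy
  have hpy : p ⬝ᵥ y = 0 := by
    rw [hy, dotProduct_sub, dotProduct_smul, smul_eq_mul, div_mul_cancel₀ _ hpg.ne', sub_self]
  have hy0 : y ≠ 0 := by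
    intro h0
    exact hx' _ (sub_eq_zero.1 h0)
  have hyT : ∀ i ∈ T, r i ⬝ᵥ g = 0 → r i ⬝ᵥ y = 0 := by
    intro i hi h0
    rw [hy, dotProduct_sub, dotProduct_smul, hx i hi h0, h0]
    simp
  obtain ⟨i0, hi0, hi0'⟩ : ∃ i ∈ T, r i ⬝ᵥ y ≠ 0 := by
    by_contra hc
    push Not at hc
    exact hy0 (hT y hc)
  -- a sign
  obtain ⟨z, hz1, hz2, hz3⟩ : ∃ z : Fin n → ℝ, p ⬝ᵥ z = 0 ∧
      (∀ i ∈ T, r i ⬝ᵥ g = 0 → r i ⬝ᵥ z = 0) ∧ ∃ i ∈ T, 0 < r i ⬝ᵥ z := by
    rcases lt_or_gt_of_ne hi0' with h1 | h1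
    · refine ⟨-y, by rw [dotProduct_neg, hpy, neg_zero], fun i hi h0 => ?_, i0, hi0, ?_⟩
      · rw [dotProduct_neg, hyT i hi h0, neg_zero]
      · rw [dotProduct_neg]; linarith
    · exact ⟨y, hpy, hyT, i0, hi0, h1⟩
  obtain ⟨t, ht, h1, i1, hi1, h2, h3⟩ := exists_block hg hz2 hz3
  have h4 : p ⬝ᵥ (g + t • z) = p ⬝ᵥ g := by
    rw [dotProduct_add, dotProduct_smul, hz1, smul_zero, add_zero]
  have h5 : (T.filter fun i => r i ⬝ᵥ (g + t • z) = 0).card ∈ S :=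
    ⟨_, h1, by rw [h4]; exact hpg, rfl⟩
  have h6 := le_csSup hbd h5
  rw [← hk] at h6
  have h7 : (T.filter fun i => r i ⬝ᵥ g = 0) ⊂ T.filter fun i => r i ⬝ᵥ (g + t • z) = 0 := by
    rw [Finset.ssubset_iff_of_subset]
    · exact ⟨i1, Finset.mem_filter.2 ⟨hi1, h3⟩, fun h => h2.ne (Finset.mem_filter.1 h).2⟩
    · intro i hi
      rw [Finset.mem_filter] at hi ⊢
      refine ⟨hi.1, ?_⟩
      rw [dotProduct_add, dotProduct_smul, hi.2, hz2 i hi.1 hi.2]
      simp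
  have := Finset.card_lt_card h7
  omega

/-! ### Integer vectors -/

/-- an integer vector as a real vector -/
def rv (g : Fin n → ℤ) : Fin n → ℝ := fun j => (g j : ℝ)

theorem rv_dot (g h : Fin n → ℤ) : rv g ⬝ᵥ rv h = ((g ⬝ᵥ h : ℤ) : ℝ) := by
  simp [rv, dotProduct]

/-- the generalised cross product -/
def crossP {k : ℕ} (M : Matrix (Fin k) (Fin (k + 1)) ℤ) : Fin (k + 1) → ℤ :=
  fun j => (-1) ^ (j : ℕ) * (M.submatrix id j.succAbove).det

theorem crossP_dot {R : Type} [CommRing R] {k : ℕ} (M : Matrix (Fin k) (Fin (k + 1)) ℤ)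
    (u : Fin (k + 1) → R) :
    (∑ j, u j * ((crossP M j : ℤ) : R)) =
      (Matrix.of (Fin.cons u (fun i j => ((M i j : ℤ) : R)) : Fin (k + 1) → Fin (k + 1) → R)).det := by
  rw [Matrix.det_succ_row_zero]
  refine Finset.sum_congr rfl fun j _ => ?_
  have h1 : ((Matrix.of (Fin.cons u (fun i j => ((M i j : ℤ) : R)) :
      Fin (k + 1) → Fin (k + 1) → R)).submatrix Fin.succ j.succAbove).det =
      (((M.submatrix id j.succAbove).det : ℤ) : R) := by
    have h2 := (Int.castRingHom R).map_det (M.submatrix id j.succAbove)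
    rw [eq_intCast] at h2
    rw [h2]
    congr 1
  rw [h1]
  simp only [crossP, Matrix.of_apply, Fin.cons_zero]
  push_cast
  ring

theorem abs_crossP_le {k : ℕ} (M : Matrix (Fin k) (Fin (k + 1)) ℤ) (j : Fin (k + 1)) :
    |crossP M j| = |(M.submatrix id j.succAbove).det| := by
  rw [crossP, abs_mul, abs_pow, abs_neg, abs_one, one_pow, one_mul]

/-- minors bounded by `Δ` -/
def MinorsLe (a : ι → Fin n → ℤ) (Δ : ℕ) : Prop :=
  ∀ (k : ℕ) (f : Fin k → ι) (s : Fin k → Fin n),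
    |(Matrix.of fun i j => a (f i) (s j)).det| ≤ Δ

/-- the rows as real vectors -/
def rr (a : ι → Fin n → ℤ) (i : ι) : Fin n → ℝ := rv (a i)

/-- extreme directions are spanned by small integer vectors -/
theorem exists_int {a : ι → Fin n → ℤ} {Δ : ℕ} (hΔ : MinorsLe a Δ) {T : Finset ι}
    {g : Fin n → ℝ} (hg0 : g ≠ 0) (hg : Extr (rr a) T g) :
    ∃ w : Fin n → ℤ, (∀ j, |w j| ≤ Δ) ∧ ∃ s : ℝ, 0 < s ∧ rv w = s • g := by
  classical
  obtain _ | k := n
  · exact absurd (funext fun j => j.elim0) hg0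
  set Z := T.filter fun i => rr a i ⬝ᵥ g = 0 with hZ
  have hZg : ∀ i ∈ Z, rr a i ⬝ᵥ g = 0 := fun i hi => (Finset.mem_filter.1 hi).2
  -- the span of the rows of `Z`
  set M : Matrix Z (Fin (k + 1)) ℝ := Matrix.of fun i => rr a i with hM
  have hker : LinearMap.ker M.mulVecLin = Submodule.span ℝ {g} := by
    ext h
    rw [LinearMap.mem_ker, Submodule.mem_span_singleton]
    constructor
    · intro h0
      have h1 : ∀ i ∈ Z, rr a i ⬝ᵥ h = 0 := fun i hi => by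
        have := congrFun h0 ⟨i, hi⟩
        simpa [M, Matrix.mulVec] using this
      obtain ⟨s, hs⟩ := hg h fun i hi h0 => h1 i (Finset.mem_filter.2 ⟨hi, h0⟩)
      exact ⟨s, hs.symm⟩
    · rintro ⟨s, rfl⟩
      rw [map_smul]
      have : M.mulVecLin g = 0 := by
        funext i
        simpa [M, Matrix.mulVec] using hZg i i.2
      rw [this, smul_zero]
  have hrank : Module.finrank ℝ (Submodule.span ℝ (Set.range M.row)) = k := by
    rw [← Matrix.rank_eq_finrank_span_row]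
    have h1 := LinearMap.finrank_range_add_finrank_ker M.mulVecLin
    rw [hker, finrank_span_singleton hg0, Module.finrank_fin_fun] at h1
    have h2 : M.rank = Module.finrank ℝ (LinearMap.range M.mulVecLin) := rfl
    omega
  obtain ⟨f, hf1, hf2, hf3⟩ : ∃ f : Fin k → (Fin (k + 1) → ℝ), (∀ i, f i ∈ Set.range M.row) ∧
      Submodule.span ℝ (Set.range f) = Submodule.span ℝ (Set.range M.row) ∧
      LinearIndependent ℝ f := by
    have := Submodule.exists_fun_fin_finrank_span_eq ℝ (Set.range M.row)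
    rw [hrank] at this
    exact this
  choose idx hidx using hf1
  have hf : ∀ i, f i = rr a (idx i) := fun i => (hidx i).symm
  set N : Matrix (Fin k) (Fin (k + 1)) ℤ := Matrix.of fun i => a (idx i) with hN
  set w := crossP N with hw
  have hcons : ∀ u : Fin (k + 1) → ℝ, u ⬝ᵥ rv w =
      (Matrix.of (Fin.cons u f : Fin (k + 1) → Fin (k + 1) → ℝ)).det := by
    intro u
    have h1 := crossP_dot (R := ℝ) N u
    rw [show u ⬝ᵥ rv w = ∑ j, u j * ((crossP N j : ℤ) : ℝ) from rfl, h1]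
    congr 2
    funext i
    refine Fin.cases rfl (fun i => ?_) i
    simp only [Fin.cons_succ]
    rw [hf i]
    rfl
  have hfw : ∀ i, f i ⬝ᵥ rv w = 0 := by
    intro i
    rw [hcons]
    exact Matrix.det_zero_of_row_eq (i := 0) (j := i.succ) (Fin.succ_ne_zero i).symm rfl
  have hspan : ∀ v : Fin (k + 1) → ℝ, (∀ i, f i ⬝ᵥ v = 0) →
      ∀ u ∈ Submodule.span ℝ (Set.range f), u ⬝ᵥ v = 0 := by
    intro v hv u hu
    induction hu using Submodule.span_induction with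
    | mem x h =>
      obtain ⟨i, rfl⟩ := h
      exact hv i
    | zero => exact zero_dotProduct _
    | add x y _ _ hx hy => rw [add_dotProduct, hx, hy, add_zero]
    | smul c x _ hx => rw [smul_dotProduct, hx, smul_zero]
  have hgf : ∀ i, f i ⬝ᵥ g = 0 := fun i => by rw [hf]; exact hZg _ (idx i).2
  have hgw : g ⬝ᵥ rv w ≠ 0 := by
    rw [hcons]
    have h1 : LinearIndependent ℝ (Fin.cons g f : Fin (k + 1) → Fin (k + 1) → ℝ) := by
      rw [linearIndependent_finCons]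
      refine ⟨hf3, fun hmem => ?_⟩
      have := hspan g hgf g hmem
      exact hg0 (dotProduct_self_eq_zero.1 this)
    have h2 : IsUnit (Matrix.of (Fin.cons g f : Fin (k + 1) → Fin (k + 1) → ℝ)) :=
      Matrix.linearIndependent_rows_iff_isUnit.1 h1
    exact ((Matrix.isUnit_iff_isUnit_det _).1 h2).ne_zero
  have hwZ : ∀ i ∈ T, rr a i ⬝ᵥ g = 0 → rr a i ⬝ᵥ rv w = 0 := by
    intro i hi h0
    refine hspan (rv w) hfw _ ?_
    rw [hf2]
    exact Submodule.subset_span ⟨⟨i, Finset.mem_filter.2 ⟨hi, h0⟩⟩, rfl⟩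
  obtain ⟨s, hs⟩ := hg (rv w) hwZ
  have hs0 : s ≠ 0 := by
    rintro rfl
    rw [zero_smul] at hs
    rw [hs, dotProduct_zero] at hgw
    exact hgw rfl
  have hwΔ : ∀ j, |w j| ≤ Δ := fun j => by
    rw [hw, abs_crossP_le]
    exact hΔ k (fun i => (idx i : ι)) j.succAbove
  rcases lt_or_gt_of_ne hs0 with h | h
  · refine ⟨-w, fun j => by rw [Pi.neg_apply, abs_neg]; exact hwΔ j, -s, by linarith, ?_⟩
    rw [neg_smul, ← hs]
    funext j
    simp [rv]
  · exact ⟨w, hwΔ, s, h, hs⟩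

end Pool.Agent.Q330.TU
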