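import Pool.Agent.Q330.TU.Round
set_option autoImplicit false

/-!
# Linear programs `A x ≤ b`, `x ≥ 0`
-/

namespace Pool.Agent.Q330.TU

open Matrix Finset

variable {m n Δ : ℕ}

/-- the constraint rows of `A x ≤ b`, `x ≥ 0` -/
def rowsN (A : Fin m → Fin n → ℤ) : Fin m ⊕ Fin n → Fin n → ℤ :=
  Sum.elim A fun j => -Pi.single j 1

/-- the right hand sides -/
def rhsN (b : Fin m → ℝ) : Fin m ⊕ Fin n → ℝ := Sum.elim b fun _ => 0

theorem minors_rowsN {A : Fin m → Fin n → ℤ} (hΔ1 : 1 ≤ Δ) (h : MinorsLe A Δ) :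
    MinorsLe (rowsN A) Δ := by
  intro k
  induction k with
  | zero =>
    intro f s
    simp only [Matrix.det_isEmpty]
    have : (1 : ℤ) ≤ Δ := by exact_mod_cast hΔ1
    simpa using this
  | succ k ih =>
    intro f s
    by_cases hall : ∀ i, ∃ i', f i = Sum.inl i'
    · choose f' hf' using hall
      have : (Matrix.of fun i j => rowsN A (f i) (s j)) =
          (Matrix.of fun i j => A (f' i) (s j)) := by
        ext i j
        simp [rowsN, hf' i]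
      rw [this]
      exact h _ f' s
    · push Not at hall
      obtain ⟨i0, hi0⟩ := hall
      obtain ⟨j0, hj0⟩ : ∃ j0, f i0 = Sum.inr j0 := by
        rcases hf : f i0 with i' | j'
        · exact absurd hf (hi0 i')
        · exact ⟨j', rfl⟩
      by_cases hs : Function.Injective s
      · rw [Matrix.det_succ_row _ i0]
        have hentry : ∀ j, (Matrix.of fun i j => rowsN A (f i) (s j)) i0 j =
            if s j = j0 then (-1 : ℤ) else 0 := by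
          intro j
          rw [Matrix.of_apply, hj0]
          simp only [rowsN, Sum.elim_inr, Pi.neg_apply, Pi.single_apply]
          split_ifs <;> simp
        by_cases hex : ∃ j1, s j1 = j0
        · obtain ⟨j1, hj1⟩ := hex
          rw [Finset.sum_eq_single j1]
          · rw [hentry, if_pos hj1, abs_mul, abs_mul, abs_pow, abs_neg, abs_one, one_pow,
              one_mul, one_mul]
            exact ih (fun i => f (i0.succAbove i)) (fun j => s (j1.succAbove j))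
          · intro j _ hj
            rw [hentry, if_neg, mul_zero, zero_mul]
            intro h'
            exact hj (hs (h'.trans hj1.symm))
          · intro h'
            exact absurd (Finset.mem_univ _) h'
        · push Not at hex
          rw [Finset.sum_eq_zero]
          · simp
          · intro j _
            rw [hentry, if_neg (hex j), mul_zero, zero_mul]
      · unfold Function.Injective at hs
        push Not at hs
        obtain ⟨j1, j2, h1, h2⟩ := hs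
        rw [Matrix.det_zero_of_column_eq h2 fun i => by simp [h1]]
        simp

theorem HH_le (hn : 1 ≤ n) (hΔ1 : 1 ≤ Δ) : HH n Δ ≤ 8 * n ^ 5 * Δ ^ 4 := by
  unfold HH DD side kap
  have h1 : 1 ≤ n * Δ * (n * Δ) := Nat.mul_pos (Nat.mul_pos hn hΔ1) (Nat.mul_pos hn hΔ1)
  calc 2 * (n * ((n * Δ * (n * Δ) * (2 * n * (n * Δ)) + 2 * n * (n * Δ)) * Δ))
      = 2 * (n * (((n * Δ * (n * Δ)) + 1) * (2 * n * (n * Δ)) * Δ)) := by ring
    _ ≤ 2 * (n * (((n * Δ * (n * Δ)) + (n * Δ * (n * Δ))) * (2 * n * (n * Δ)) * Δ)) := by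
        gcongr
    _ = 8 * n ^ 5 * Δ ^ 4 := by ring

theorem HH_pow_le (hn : 1 ≤ n) (hΔ1 : 1 ≤ Δ) : HH n Δ ≤ 2 ^ (3 + 5 * Nat.clog 2 (n * Δ)) := by
  have h1 : n * Δ ≤ 2 ^ Nat.clog 2 (n * Δ) := Nat.le_pow_clog (by norm_num) _
  calc HH n Δ ≤ 8 * n ^ 5 * Δ ^ 4 := HH_le hn hΔ1
    _ ≤ 8 * n ^ 5 * Δ ^ 5 := Nat.mul_le_mul_left _ (Nat.pow_le_pow_right hΔ1 (by norm_num))
    _ = 8 * (n * Δ) ^ 5 := by ring
    _ ≤ 8 * (2 ^ Nat.clog 2 (n * Δ)) ^ 5 := Nat.mul_le_mul_left _ (Nat.pow_le_pow_left h1 5)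
    _ = 2 ^ (3 + 5 * Nat.clog 2 (n * Δ)) := by
        rw [← pow_mul, pow_add, mul_comm 5]
        norm_num

variable {ι : Type} [Fintype ι] {a : ι → Fin n → ℤ} {b : ι → ℝ} {v : Fin n → ℝ}

/-- **The monotone diameter.** -/
theorem monotone_diameter (hΔ : MinorsLe a Δ) (hn : 1 ≤ n) (hΔ1 : 1 ≤ Δ)
    (hv : v ∈ (Ply a b).extremePoints ℝ) (c : Fin n → ℝ) :
    ∃ (N : ℕ) (w : ℕ → Fin n → ℝ), N ≤ 150 * n ^ 6 * Δ ^ 4 * (1 + Nat.clog 2 (n * Δ)) ∧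
      w 0 = v ∧
      (∀ k < N, w (k + 1) ∈ (Ply a b).extremePoints ℝ ∧
        IsExposed ℝ (Ply a b) (segment ℝ (w k) (w (k + 1))) ∧ c ⬝ᵥ w k < c ⬝ᵥ w (k + 1)) ∧
      ((∀ z ∈ Ply a b, c ⬝ᵥ z ≤ c ⬝ᵥ w N) ∨ ∃ d : Fin n → ℝ, 0 < c ⬝ᵥ d ∧
        IsExposed ℝ (Ply a b) {z | ∃ t : ℝ, 0 ≤ t ∧ z = w N + t • d}) := by
  obtain ⟨c', hc1, hc2⟩ := exists_round hΔ1 c
  set ℓ := Nat.clog 2 (n * Δ) with hℓ
  set C := n.factorial * Δ ^ n with hC
  have hC1 : 1 ≤ C := Nat.mul_pos (Nat.factorial_pos n) (Nat.pow_pos hΔ1)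
  have hnΔ : n * Δ ≤ 2 ^ ℓ := Nat.le_pow_clog (by norm_num) _
  have hL : C * HH n Δ ≤ 2 ^ (3 + (n + 5) * ℓ) := by
    have h1 : C ≤ 2 ^ (n * ℓ) := by
      calc C ≤ n ^ n * Δ ^ n := Nat.mul_le_mul_right _ (Nat.factorial_le_pow n)
        _ = (n * Δ) ^ n := (mul_pow _ _ _).symm
        _ ≤ (2 ^ ℓ) ^ n := Nat.pow_le_pow_left hnΔ n
        _ = 2 ^ (n * ℓ) := by rw [← pow_mul, mul_comm]
    calc C * HH n Δ ≤ 2 ^ (n * ℓ) * 2 ^ (3 + 5 * ℓ) := Nat.mul_le_mul h1 (HH_pow_le hn hΔ1)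
      _ = 2 ^ (3 + (n + 5) * ℓ) := by rw [← pow_add]; congr 1; ring
  obtain ⟨N, w, h1, h2, h3, h4, h5⟩ := exists_path hΔ hn hΔ1 (vert_of_extreme hv) hC1 hc1 hL
  refine ⟨N, w, ?_, h2, fun k hk => ⟨(h4 (k + 1) hk).extreme, ?_, ?_⟩, ?_⟩
  · have e1 := HH_le hn hΔ1
    have e2 : 3 + (n + 5) * ℓ ≤ 6 * n * (1 + ℓ) := by nlinarith
    have e3 : HH n Δ * (3 + (n + 5) * ℓ) ≤ 8 * n ^ 5 * Δ ^ 4 * (6 * n * (1 + ℓ)) :=
      Nat.mul_le_mul e1 e2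
    have e4 : 8 * n ^ 5 * Δ ^ 4 * (6 * n * (1 + ℓ)) = 48 * (n ^ 6 * Δ ^ 4 * (1 + ℓ)) := by ring
    have e5 : 1 ≤ n ^ 6 * Δ ^ 4 * (1 + ℓ) :=
      Nat.mul_pos (Nat.mul_pos (Nat.pow_pos hn) (Nat.pow_pos hΔ1)) (by omega)
    have e6 : 150 * n ^ 6 * Δ ^ 4 * (1 + ℓ) = 150 * (n ^ 6 * Δ ^ 4 * (1 + ℓ)) := by ring
    rw [e6]
    omega
  · obtain ⟨g, -, t, -, -, -, he⟩ := h3 k hk
    exact he
  · obtain ⟨g, hg, t, ht, hy, hcg, -⟩ := h3 k hk
    rw [hy, dotProduct_add, dotProduct_smul, smul_eq_mul]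
    have := mul_pos ht ((hc2 g hg.1).2 hcg)
    linarith
  · rcases h5 with h | ⟨g, hg, hcg, he⟩
    · left
      refine max_of_ed hΔ (h4 N le_rfl) fun g hg => ?_
      have h6 := ed_le (h4 N le_rfl).mem h hg
      by_contra hcon
      push Not at hcon
      have := (hc2 g hg.1).1 hcon
      linarith
    · right
      exact ⟨rv g, (hc2 g hg.1).2 hcg, he⟩

/-- **The random shadow vertex rule.** -/
theorem random_rule (hΔ : MinorsLe a Δ) (hn : 1 ≤ n) (hΔ1 : 1 ≤ Δ)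
    (hv : v ∈ (Ply a b).extremePoints ℝ) {c : Fin n → ℤ} {C : ℕ} (hC : 1 ≤ C)
    (hc : ∀ j, |c j| ≤ C) {idx : Fin n → ι} (h1 : ∀ k, rr a (idx k) ⬝ᵥ v = b (idx k))
    (h2 : (Matrix.of fun k => a (idx k)).det ≠ 0) :
    ∃ len : (Fin n → ℤ) → ℕ,
      ∑ X ∈ cube n Δ, len X ≤
        150 * n ^ 5 * Δ ^ 4 * (1 + Nat.clog 2 (n * Δ) + Nat.clog 2 C) * (cube n Δ).card ∧
      ∀ X ∈ cube n Δ, ∀ (N : ℕ) (w : ℕ → Fin n → ℝ), w 0 = v →
        (∀ k < N, ShStep (Ply a b) (rv c) (rv (aux Δ (∑ k, a (idx k)) X)) (w k) (w (k + 1))) →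
        N < len X ∧ ((∀ z ∈ Ply a b, rv c ⬝ᵥ z ≤ rv c ⬝ᵥ w N) ∨
          (∃ d : Fin n → ℝ, 0 < rv c ⬝ᵥ d ∧
            IsExposed ℝ (Ply a b) {z | ∃ t : ℝ, 0 ≤ t ∧ z = w N + t • d}) ∨
          ∃ y, ShStep (Ply a b) (rv c) (rv (aux Δ (∑ k, a (idx k)) X)) (w N) y) := by
  have hv' := vert_of_extreme hv
  obtain ⟨q1, q2⟩ := q_spec hΔ le_rfl (fun k => mem_tg.2 (h1 k)) fun h hh => by
    have hunit : IsUnit ((Matrix.of fun k => a (idx k)).map (Int.cast : ℤ → ℝ)) := by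
      rw [Matrix.isUnit_iff_isUnit_det]
      have h3 := (Int.castRingHom ℝ).map_det (Matrix.of fun k => a (idx k))
      have h4 : ((Matrix.of fun k => a (idx k)).map (Int.cast : ℤ → ℝ)).det =
          (((Matrix.of fun k => a (idx k)).det : ℤ) : ℝ) := by
        rw [← eq_intCast (Int.castRingHom ℝ), h3]
        rfl
      rw [h4]
      exact isUnit_iff_ne_zero.2 (by exact_mod_cast h2)
    apply Matrix.mulVec_injective_of_isUnit hunit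
    rw [Matrix.mulVec_zero]
    funext k
    exact hh k
  set ℓ := Nat.clog 2 (n * Δ) with hℓ
  set e := Nat.clog 2 C with he
  have hL : C * HH n Δ ≤ 2 ^ (3 + 5 * ℓ + e) := by
    calc C * HH n Δ ≤ 2 ^ e * 2 ^ (3 + 5 * ℓ) :=
          Nat.mul_le_mul (Nat.le_pow_clog (by norm_num) _) (HH_pow_le hn hΔ1)
      _ = 2 ^ (3 + 5 * ℓ + e) := by rw [← pow_add]; congr 1; ring
  obtain ⟨len, l1, l2⟩ := shadow_rule hΔ hn hΔ1 hv' q1 q2 hC hc hL
  refine ⟨len, l1.trans (Nat.mul_le_mul_right _ ?_), fun X hX N w hw0 hw => ?_⟩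
  · have e1 := HH_le hn hΔ1
    have e2 : 3 + 5 * ℓ + e ≤ 5 * (1 + ℓ + e) := by omega
    have e3 : HH n Δ * (3 + 5 * ℓ + e) ≤ 8 * n ^ 5 * Δ ^ 4 * (5 * (1 + ℓ + e)) :=
      Nat.mul_le_mul e1 e2
    have e4 : 8 * n ^ 5 * Δ ^ 4 * (5 * (1 + ℓ + e)) = 40 * (n ^ 5 * Δ ^ 4 * (1 + ℓ + e)) := by
      ring
    have e5 : 1 ≤ n ^ 5 * Δ ^ 4 * (1 + ℓ + e) :=
      Nat.mul_pos (Nat.mul_pos (Nat.pow_pos hn) (Nat.pow_pos hΔ1)) (by omega)
    have e6 : 150 * n ^ 5 * Δ ^ 4 * (1 + ℓ + e) = 150 * (n ^ 5 * Δ ^ 4 * (1 + ℓ + e)) := by ring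
    rw [e6]
    omega
  · obtain ⟨g1, g2⟩ := l2 X hX N w hw0 hw
    refine ⟨g1, ?_⟩
    rcases g2 with h | ⟨g, hg, hcg, he⟩ | h
    · exact Or.inl h
    · exact Or.inr (Or.inl ⟨rv g, hcg, he⟩)
    · exact Or.inr (Or.inr h)

end Pool.Agent.Q330.TU
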