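import Pool.Agent.Q330.TU.Count
set_option autoImplicit false

/-!
# Paths
-/

namespace Pool.Agent.Q330.TU

open Matrix Finset

variable {ι : Type} [Fintype ι] {n : ℕ} {a : ι → Fin n → ℤ} {b : ι → ℝ} {Δ : ℕ}
  {x y z v : Fin n → ℝ}

/-- a step along the edge in the direction `g` -/
def EStep (Δ : ℕ) (a : ι → Fin n → ℤ) (b : ι → ℝ) (c : Fin n → ℤ) (x y : Fin n → ℝ) : Prop :=
  ∃ g ∈ Ed Δ a b x, ∃ t : ℝ, 0 < t ∧ y = x + t • rv g ∧ 0 < rv c ⬝ᵥ rv g ∧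
    IsExposed ℝ (Ply a b) (segment ℝ x y)

/-- an unbounded edge in the direction `g` -/
def ERay (Δ : ℕ) (a : ι → Fin n → ℤ) (b : ι → ℝ) (c : Fin n → ℤ) (x : Fin n → ℝ)
    (g : Fin n → ℤ) : Prop :=
  g ∈ Ed Δ a b x ∧ 0 < rv c ⬝ᵥ rv g ∧
    IsExposed ℝ (Ply a b) {z | ∃ t : ℝ, 0 ≤ t ∧ z = x + t • rv g}

/-- `x` maximises `c` -/
def Opt (a : ι → Fin n → ℤ) (b : ι → ℝ) (c : Fin n → ℝ) (x : Fin n → ℝ) : Prop :=
  ∀ z ∈ Ply a b, c ⬝ᵥ z ≤ c ⬝ᵥ x

theorem EStep.lt {c : Fin n → ℤ} (h : EStep Δ a b c x y) : rv c ⬝ᵥ x < rv c ⬝ᵥ y := by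
  obtain ⟨g, -, t, ht, rfl, hc, -⟩ := h
  rw [dotProduct_add, dotProduct_smul, smul_eq_mul]
  have := mul_pos ht hc
  linarith

/-- the shadow path goes on inside the visited vertices -/
theorem vis_step (hΔ : MinorsLe a Δ) {c d : Fin n → ℤ} {C : ℕ} (hd : ∀ j, |d j| ≤ (DD n Δ : ℤ))
    (hn : 1 ≤ n) (hΔ1 : 1 ≤ Δ)
    (hx : x ∈ vis a b Δ c d C) (hno : ¬ Opt a b (rv c) x) :
    (∃ g, ERay Δ a b c x g) ∨ ∃ y ∈ vis a b Δ c d C, EStep Δ a b c x y ∧
      ∃ μ : ℝ, 0 < μ ∧ MaxAt a b c d μ x ∧ MaxAt a b c d μ y := by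
  obtain ⟨hv, μ, h1, h2, h3⟩ := mem_vis.1 hx
  have hH : (1 : ℝ) ≤ HH n Δ := by exact_mod_cast one_le_HH hn hΔ1
  have hμ : 0 < μ := by
    have : 0 < 1 / (HH n Δ : ℝ) := by positivity
    linarith
  unfold Opt at hno
  push Not at hno
  obtain ⟨g, hg, μ', m1, m2, m3, m4, m5, m6⟩ := shadow_step hΔ hv hd h3 hμ hno
  by_cases hb : ∃ i, 0 < rr a i ⬝ᵥ rv g
  · right
    obtain ⟨t, ht, hy, he⟩ := edge_bounded hv hg hb
    have hmax : MaxAt a b c d μ' (x + t • rv g) := by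
      intro z hz
      have h4 := m5 z hz
      have h5 : (rv c + μ' • rv d) ⬝ᵥ (x + t • rv g) = (rv c + μ' • rv d) ⬝ᵥ x := by
        rw [dotProduct_add, dotProduct_smul, m4, smul_zero, add_zero]
      rw [h5]; exact h4
    refine ⟨x + t • rv g, mem_vis.2 ⟨hy, μ', ?_, m2.trans h2, hmax⟩,
      ⟨g, hg, t, ht, rfl, m3, he⟩, μ', m1, m5, hmax⟩
    rw [div_le_iff₀ (by linarith)]
    have e6 : (HH n Δ : ℝ) = 2 * (n * ((DD n Δ : ℝ) * Δ)) := by unfold HH; push_cast; ring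
    rw [e6]
    linarith
  · left
    push Not at hb
    exact ⟨g, hg, m3, edge_unbounded hv hg hb⟩

/-- chains in a finite set -/
theorem exists_chain {α : Type} [DecidableEq α] (W : Finset α) (f : α → ℝ) (E : α → α → Prop)
    (S : α → Prop) (hE : ∀ x y, E x y → f x < f y)
    (hstep : ∀ x ∈ W, S x ∨ ∃ y ∈ W, E x y) :
    ∀ (m : ℕ) (x : α), x ∈ W → (W.filter fun y => f x < f y).card ≤ m →
      ∃ (N : ℕ) (w : ℕ → α), N ≤ m ∧ w 0 = x ∧ (∀ k < N, E (w k) (w (k + 1))) ∧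
        (∀ k ≤ N, w k ∈ W) ∧ S (w N) := by
  intro m
  induction m with
  | zero =>
    intro x hx hm
    rcases hstep x hx with h | ⟨y, hy, h⟩
    · exact ⟨0, fun _ => x, le_rfl, rfl, fun k hk => absurd hk (Nat.not_lt_zero k),
        fun k _ => hx, h⟩
    · exfalso
      have : y ∈ W.filter fun y => f x < f y := Finset.mem_filter.2 ⟨hy, hE x y h⟩
      have := Finset.card_pos.2 ⟨y, this⟩
      omega
  | succ m ih =>
    intro x hx hm
    rcases hstep x hx with h | ⟨y, hy, h⟩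
    · exact ⟨0, fun _ => x, Nat.zero_le _, rfl, fun k hk => absurd hk (Nat.not_lt_zero k),
        fun k _ => hx, h⟩
    · have h1 : (W.filter fun z => f y < f z).card < (W.filter fun z => f x < f z).card := by
        refine Finset.card_lt_card ?_
        rw [Finset.ssubset_iff_of_subset]
        · exact ⟨y, Finset.mem_filter.2 ⟨hy, hE x y h⟩,
            fun h => lt_irrefl _ (Finset.mem_filter.1 h).2⟩
        · intro z hz
          rw [Finset.mem_filter] at hz ⊢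
          exact ⟨hz.1, (hE x y h).trans hz.2⟩
      obtain ⟨N, w, w1, w2, w3, w4, w5⟩ := ih y hy (by omega)
      refine ⟨N + 1, fun k => if k = 0 then x else w (k - 1), by omega, by simp, ?_, ?_, ?_⟩
      · intro k hk
        rcases Nat.eq_zero_or_pos k with rfl | hk0
        · simp [w2, h]
        · have := w3 (k - 1) (by omega)
          rw [show k - 1 + 1 = k by omega] at this
          simp only [show k ≠ 0 by omega, if_false, Nat.succ_ne_zero, Nat.add_sub_cancel]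
          exact this
      · intro k hk
        rcases Nat.eq_zero_or_pos k with rfl | hk0
        · simpa using hx
        · simp only [show k ≠ 0 by omega, if_false]
          exact w4 (k - 1) (by omega)
      · simpa using w5

/-- paths with increasing values in a finite set are short -/
theorem chain_le {α : Type} [DecidableEq α] (W : Finset α) (f : α → ℝ) {N : ℕ} {w : ℕ → α}
    (h1 : ∀ k < N, f (w k) < f (w (k + 1))) (h2 : ∀ k ≤ N, w k ∈ W) : N + 1 ≤ W.card := by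
  have hmono : ∀ i j, i < j → j ≤ N → f (w i) < f (w j) := by
    intro i j hij
    induction j, hij using Nat.le_induction with
    | base => intro h; exact h1 i (by omega)
    | succ j hj ih => intro h; exact (ih (by omega)).trans (h1 j (by omega))
  have hcard : (Finset.image w (Finset.range (N + 1))).card = N + 1 := by
    rw [Finset.card_image_of_injOn, Finset.card_range]
    intro i hi j hj hij
    rw [Finset.mem_coe, Finset.mem_range] at hi hj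
    rcases lt_trichotomy i j with h | h | h
    · have := hmono i j h (by omega)
      rw [hij] at this
      exact absurd this (lt_irrefl _)
    · exact h
    · have := hmono j i h (by omega)
      rw [hij] at this
      exact absurd this (lt_irrefl _)
  rw [← hcard]
  refine Finset.card_le_card fun y hy => ?_
  obtain ⟨k, hk, rfl⟩ := Finset.mem_image.1 hy
  exact h2 k (by have := Finset.mem_range.1 hk; omega)

theorem start_vis (hΔ : MinorsLe a Δ) (hn : 1 ≤ n) (hΔ1 : 1 ≤ Δ) (hv : Vert a b v)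
    {q : Fin n → ℤ} (hq2 : ∀ g ∈ Ed Δ a b v, q ⬝ᵥ g ≤ -1) {X : Fin n → ℤ}
    (hX : X ∈ cube n Δ) {c : Fin n → ℤ} {C : ℕ} (hC : 1 ≤ C) (hc : ∀ j, |c j| ≤ C) :
    v ∈ vis a b Δ c (aux Δ q X) C := by
  refine mem_vis.2 ⟨hv, C, ?_, le_rfl, maxAt_start hΔ hv hq2 hX hc⟩
  have hH : (1 : ℝ) ≤ HH n Δ := by exact_mod_cast one_le_HH hn hΔ1
  have hC' : (1 : ℝ) ≤ C := by exact_mod_cast hC
  calc 1 / (HH n Δ : ℝ) ≤ 1 := by rw [div_le_one (by linarith)]; exact hH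
    _ ≤ C := hC'

/-- **A short path.** -/
theorem exists_path (hΔ : MinorsLe a Δ) (hn : 1 ≤ n) (hΔ1 : 1 ≤ Δ) (hv : Vert a b v)
    {c : Fin n → ℤ} {C L : ℕ} (hC : 1 ≤ C) (hc : ∀ j, |c j| ≤ C)
    (hL : C * HH n Δ ≤ 2 ^ L) :
    ∃ (N : ℕ) (w : ℕ → Fin n → ℝ), N + 1 ≤ 3 * (HH n Δ * L + 1) ∧ w 0 = v ∧
      (∀ k < N, EStep Δ a b c (w k) (w (k + 1))) ∧ (∀ k ≤ N, Vert a b (w k)) ∧
      (Opt a b (rv c) (w N) ∨ ∃ g, ERay Δ a b c (w N) g) := by
  classical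
  obtain ⟨q, hq1, hq2⟩ := exists_q hΔ hv
  have h1 := sum_vis_le hΔ hn hΔ1 hq1 (b := b) (c := c) hL
  obtain ⟨X, hX, hXle⟩ : ∃ X ∈ cube n Δ, (vis a b Δ c (aux Δ q X) C).card ≤
      3 * (HH n Δ * L + 1) := by
    by_contra hcon
    push Not at hcon
    have h2 : ∑ _X ∈ cube n Δ, 3 * (HH n Δ * L + 1) <
        ∑ X ∈ cube n Δ, (vis a b Δ c (aux Δ q X) C).card :=
      Finset.sum_lt_sum_of_nonempty (cube_nonempty hn hΔ1) hcon
    rw [Finset.sum_const, smul_eq_mul, mul_comm] at h2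
    omega
  have hvv := start_vis hΔ hn hΔ1 hv hq2 hX hC hc
  obtain ⟨N, w, -, w2, w3, w4, w5⟩ := exists_chain (vis a b Δ c (aux Δ q X) C)
    (fun x => rv c ⬝ᵥ x) (EStep Δ a b c) (fun x => Opt a b (rv c) x ∨ ∃ g, ERay Δ a b c x g)
    (fun x y h => h.lt) (fun x hx => by
      by_cases ho : Opt a b (rv c) x
      · exact Or.inl (Or.inl ho)
      · rcases vis_step hΔ (aux_le hq1 hX) hn hΔ1 hx ho with h | ⟨y, hy, h, -⟩
        · exact Or.inl (Or.inr h)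
        · exact Or.inr ⟨y, hy, h⟩) _ v hvv le_rfl
  refine ⟨N, w, ?_, w2, w3, fun k hk => (mem_vis.1 (w4 k hk)).1, w5⟩
  exact (chain_le _ (fun x => rv c ⬝ᵥ x) (fun k hk => (w3 k hk).lt) w4).trans hXle

/-! ### The random shadow vertex rule -/

/-- a step of the shadow vertex rule with auxiliary objective `d` -/
def ShStep (P : Set (Fin n → ℝ)) (c d x y : Fin n → ℝ) : Prop :=
  x ∈ P.extremePoints ℝ ∧ y ∈ P.extremePoints ℝ ∧ IsExposed ℝ P (segment ℝ x y) ∧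
    c ⬝ᵥ x < c ⬝ᵥ y ∧ ∃ μ : ℝ, 0 < μ ∧ (∀ z ∈ P, (c + μ • d) ⬝ᵥ z ≤ (c + μ • d) ⬝ᵥ x) ∧
      ∀ z ∈ P, (c + μ • d) ⬝ᵥ z ≤ (c + μ • d) ⬝ᵥ y

/-- before the first time only the start vertex is optimal -/
theorem before_start (hΔ : MinorsLe a Δ) (hn : 1 ≤ n) (hΔ1 : 1 ≤ Δ) (hv : Vert a b v)
    {q : Fin n → ℤ} (hq2 : ∀ g ∈ Ed Δ a b v, q ⬝ᵥ g ≤ -1) {X : Fin n → ℤ}
    (hX : X ∈ cube n Δ) {c : Fin n → ℤ} {C : ℕ} (hc : ∀ j, |c j| ≤ C) {μ : ℝ} (hμ : (C : ℝ) < μ)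
    (hx : x ∈ Ply a b) (hm : MaxAt a b c (aux Δ q X) μ x) : x = v := by
  have hk : (1 : ℝ) ≤ kap n Δ := by exact_mod_cast one_le_kap hn hΔ1
  -- `d` is deep in the cone
  have h0 : ∀ g ∈ Ed Δ a b v, rv (aux Δ q X) ⬝ᵥ rv g ≤ -1 := by
    intro g hg
    have h1 := ed_le hv.mem (maxAt_start hΔ hv hq2 hX (c := 0) (C := 1) (fun j => by simp)) hg
    have h2 := ed_le hv.mem (maxAt_start hΔ hv hq2 hX (c := 0) (C := 1) (fun j => by simp)) hg
    have hX' := hX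
    unfold cube at hX'
    rw [Fintype.mem_piFinset] at hX'
    have hX'' : ∀ j, |rv X j| ≤ ((side n Δ : ℝ) - 1) := fun j => by
      have h1 := Finset.mem_Ico.1 (hX' j)
      have h2 : |X j| ≤ side n Δ - 1 := by rw [abs_of_nonneg h1.1]; omega
      unfold rv
      exact_mod_cast h2
    have e1 := abs_dot_le hX'' (ed_abs hg)
    have e3 := le_abs_self (rv X ⬝ᵥ rv g)
    have e5 : rv (aux Δ q X) ⬝ᵥ rv g =
        (kap n Δ : ℝ) * side n Δ * (rv q ⬝ᵥ rv g) + rv X ⬝ᵥ rv g := by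
      unfold dotProduct
      rw [Finset.mul_sum, ← Finset.sum_add_distrib]
      refine Finset.sum_congr rfl fun j _ => ?_
      simp only [rv, aux]
      push_cast
      ring
    have e6 : rv q ⬝ᵥ rv g ≤ -1 := by
      rw [rv_dot]
      exact_mod_cast hq2 g hg
    have e7 : (kap n Δ : ℝ) * side n Δ * (rv q ⬝ᵥ rv g) ≤ (kap n Δ : ℝ) * side n Δ * (-1) :=
      mul_le_mul_of_nonneg_left e6 (by positivity)
    have e8 : (kap n Δ : ℝ) = n * Δ := by unfold kap; push_cast; ring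
    rw [e5]
    have e9 : (n : ℝ) * (((side n Δ : ℝ) - 1) * Δ) = kap n Δ * side n Δ - kap n Δ := by
      rw [e8]; ring
    linarith
  have h1 := maxAt_start hΔ hv hq2 hX hc
  have h2 : ∀ g ∈ Ed Δ a b v, (rv c + μ • rv (aux Δ q X)) ⬝ᵥ rv g ≤ -(μ - C) := by
    intro g hg
    have e1 := ed_le hv.mem h1 hg
    have e2 := h0 g hg
    rw [add_dotProduct, smul_dotProduct, smul_eq_mul] at e1 ⊢
    have e3 : (μ - C) * (rv (aux Δ q X) ⬝ᵥ rv g) ≤ (μ - C) * (-1) :=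
      mul_le_mul_of_nonneg_left e2 (by linarith)
    linarith
  exact deep_unique hΔ hv (by linarith) h2 hx (hm v hv.mem)

/-- **The random shadow vertex rule.** -/
theorem shadow_rule (hΔ : MinorsLe a Δ) (hn : 1 ≤ n) (hΔ1 : 1 ≤ Δ) (hv : Vert a b v)
    {q : Fin n → ℤ} (hq1 : ∀ j, |q j| ≤ n * Δ) (hq2 : ∀ g ∈ Ed Δ a b v, q ⬝ᵥ g ≤ -1)
    {c : Fin n → ℤ} {C L : ℕ} (hC : 1 ≤ C) (hc : ∀ j, |c j| ≤ C)
    (hL : C * HH n Δ ≤ 2 ^ L) :
    ∃ len : (Fin n → ℤ) → ℕ, ∑ X ∈ cube n Δ, len X ≤ (3 * (HH n Δ * L + 1)) * (cube n Δ).card ∧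
      ∀ X ∈ cube n Δ, ∀ (N : ℕ) (w : ℕ → Fin n → ℝ), w 0 = v →
        (∀ k < N, ShStep (Ply a b) (rv c) (rv (aux Δ q X)) (w k) (w (k + 1))) →
        N < len X ∧ (Opt a b (rv c) (w N) ∨ (∃ g, ERay Δ a b c (w N) g) ∨
          ∃ y, ShStep (Ply a b) (rv c) (rv (aux Δ q X)) (w N) y) := by
  classical
  have hH : (1 : ℝ) ≤ HH n Δ := by exact_mod_cast one_le_HH hn hΔ1
  refine ⟨fun X => (vis a b Δ c (aux Δ q X) C).card, sum_vis_le hΔ hn hΔ1 hq1 hL, ?_⟩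
  intro X hX N w hw0 hw
  have key : ∀ k ≤ N, w k ∈ vis a b Δ c (aux Δ q X) C := by
    intro k hk
    rcases Nat.eq_zero_or_pos k with rfl | hk0
    · rw [hw0]
      exact start_vis hΔ hn hΔ1 hv hq2 hX hC hc
    · obtain ⟨s1, s2, -, s3, μ, s4, s5, s6⟩ := hw (k - 1) (by omega)
      rw [show k - 1 + 1 = k by omega] at s2 s3 s6
      refine mem_vis.2 ⟨vert_of_extreme s2, μ, ?_, ?_, s6⟩
      · obtain ⟨g, -, μ', m1, m2, -, -, -, m6⟩ := shadow_step hΔ (vert_of_extreme s1)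
          (aux_le hq1 hX) s5 s4 ⟨_, s2.1, s3⟩
        rw [div_le_iff₀ (by linarith)]
        have e6 : (HH n Δ : ℝ) = 2 * (n * ((DD n Δ : ℝ) * Δ)) := by unfold HH; push_cast; ring
        rw [e6]
        have e7 : μ' * (n * ((DD n Δ : ℝ) * Δ)) ≤ μ * (n * ((DD n Δ : ℝ) * Δ)) :=
          mul_le_mul_of_nonneg_right m2 (by positivity)
        linarith
      · by_contra hcon
        push Not at hcon
        have e1 := before_start hΔ hn hΔ1 hv hq2 hX hc hcon s1.1 s5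
        have e2 := before_start hΔ hn hΔ1 hv hq2 hX hc hcon s2.1 s6
        rw [e1, e2] at s3
        exact lt_irrefl _ s3
  refine ⟨?_, ?_⟩
  · exact chain_le _ (fun x => rv c ⬝ᵥ x) (fun k hk => (hw k hk).2.2.2.1) key
  · by_cases ho : Opt a b (rv c) (w N)
    · exact Or.inl ho
    · right
      rcases vis_step hΔ (aux_le hq1 hX) hn hΔ1 (key N le_rfl) ho with h | ⟨y, hy, h, μ, h1, h2, h3⟩
      · exact Or.inl h
      · right
        refine ⟨y, (mem_vis.1 (key N le_rfl)).1.extreme, (mem_vis.1 hy).1.extreme, ?_, h.lt,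
          μ, h1, h2, h3⟩
        obtain ⟨g, -, t, -, -, -, he⟩ := h
        exact he

end Pool.Agent.Q330.TU
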