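import Pool.Agent.Q330.TU.Edge
set_option autoImplicit false

/-!
# Vertices, edges and normal cones
-/

namespace Pool.Agent.Q330.TU

open Matrix Finset

variable {ι : Type} [Fintype ι] {n : ℕ}

/-- the polyhedron `a i x ≤ b i` -/
def Ply (a : ι → Fin n → ℤ) (b : ι → ℝ) : Set (Fin n → ℝ) := {x | ∀ i, rr a i ⬝ᵥ x ≤ b i}

open Classical in
/-- the tight rows -/
noncomputable def tg (a : ι → Fin n → ℤ) (b : ι → ℝ) (x : Fin n → ℝ) : Finset ι :=
  Finset.univ.filter fun i => rr a i ⬝ᵥ x = b i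

variable {a : ι → Fin n → ℤ} {b : ι → ℝ} {Δ : ℕ} {x y z : Fin n → ℝ}

theorem mem_tg {i : ι} : i ∈ tg a b x ↔ rr a i ⬝ᵥ x = b i := by
  classical
  simp [tg]

/-- vertices -/
structure Vert (a : ι → Fin n → ℤ) (b : ι → ℝ) (x : Fin n → ℝ) : Prop where
  mem : x ∈ Ply a b
  ker : ∀ h : Fin n → ℝ, (∀ i ∈ tg a b x, rr a i ⬝ᵥ h = 0) → h = 0

/-- the small integer extreme directions at `x` -/
def Ed (Δ : ℕ) (a : ι → Fin n → ℤ) (b : ι → ℝ) (x : Fin n → ℝ) : Set (Fin n → ℤ) :=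
  {g | (∀ j, |g j| ≤ Δ) ∧ g ≠ 0 ∧ (∀ i ∈ tg a b x, rr a i ⬝ᵥ rv g ≤ 0) ∧
    Extr (rr a) (tg a b x) (rv g)}

theorem ed_finite : (Ed Δ a b x).Finite := by
  refine (Set.finite_Icc (fun _ : Fin n => -(Δ : ℤ)) (fun _ => (Δ : ℤ))).subset ?_
  intro g hg
  rw [Set.mem_Icc]
  exact ⟨fun j => (abs_le.1 (hg.1 j)).1, fun j => (abs_le.1 (hg.1 j)).2⟩

theorem rv_ne_zero {g : Fin n → ℤ} (h : g ≠ 0) : rv g ≠ 0 := by
  intro h0
  apply h
  funext j
  have := congrFun h0 j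
  simpa [rv] using this

theorem ply_sub_le (hz : z ∈ Ply a b) {i : ι} (hi : i ∈ tg a b x) : rr a i ⬝ᵥ (z - x) ≤ 0 := by
  rw [dotProduct_sub, mem_tg.1 hi]
  linarith [hz i]

omit [Fintype ι] in
theorem Extr.smul {r : ι → Fin n → ℝ} {T : Finset ι} {g : Fin n → ℝ} (h : Extr r T g) {s : ℝ}
    (hs : s ≠ 0) : Extr r T (s • g) := by
  intro u hu
  obtain ⟨t, ht⟩ := h u fun i hi h0 => hu i hi (by rw [dotProduct_smul, h0, smul_zero])
  refine ⟨t / s, ?_⟩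
  rw [ht, smul_smul, div_mul_cancel₀ _ hs]

/-- if `p` is not maximal at the vertex `x`, it increases on an edge -/
theorem exists_ed (hΔ : MinorsLe a Δ) (hx : Vert a b x) (hz : z ∈ Ply a b) {p : Fin n → ℝ}
    (hp : p ⬝ᵥ x < p ⬝ᵥ z) : ∃ g ∈ Ed Δ a b x, 0 < p ⬝ᵥ rv g := by
  obtain ⟨g, h1, h2, h3⟩ := exists_extr (r := rr a) (T := tg a b x) hx.ker (p := p) (h := z - x)
    (fun i hi => ply_sub_le hz hi) (by rw [dotProduct_sub]; linarith)
  have hg0 : g ≠ 0 := by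
    rintro rfl
    rw [dotProduct_zero] at h2
    exact lt_irrefl _ h2
  obtain ⟨w, hw, s, hs, hws⟩ := exists_int hΔ hg0 h3
  refine ⟨w, ⟨hw, ?_, fun i hi => ?_, ?_⟩, ?_⟩
  · rintro rfl
    have h4 : s • g = 0 := by
      rw [← hws]; funext j; simp [rv]
    rcases smul_eq_zero.1 h4 with h | h
    · exact hs.ne' h
    · exact hg0 h
  · rw [hws, dotProduct_smul]
    exact mul_nonpos_of_nonneg_of_nonpos hs.le (h1 i hi)
  · rw [hws]; exact h3.smul hs.ne'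
  · rw [hws, dotProduct_smul]
    exact mul_pos hs h2

/-- moving in a feasible direction -/
theorem step_dir {h : Fin n → ℝ} (hx : x ∈ Ply a b) (hh : ∀ i ∈ tg a b x, rr a i ⬝ᵥ h ≤ 0)
    (hex : ∃ i, 0 < rr a i ⬝ᵥ h) :
    ∃ t : ℝ, 0 < t ∧ x + t • h ∈ Ply a b ∧ ∃ i, 0 < rr a i ⬝ᵥ h ∧ rr a i ⬝ᵥ (x + t • h) = b i := by
  classical
  set U := (Finset.univ : Finset ι).filter fun i => 0 < rr a i ⬝ᵥ h with hU
  obtain ⟨i0, hi0⟩ := hex
  obtain ⟨i1, hi1, hmin⟩ := Finset.exists_min_image U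
    (fun i => (b i - rr a i ⬝ᵥ x) / (rr a i ⬝ᵥ h)) ⟨i0, by simp [hU, hi0]⟩
  rw [hU, Finset.mem_filter] at hi1
  have h1 : rr a i1 ⬝ᵥ x < b i1 := by
    refine lt_of_le_of_ne (hx i1) fun h => ?_
    have := hh i1 (mem_tg.2 h)
    linarith [hi1.2]
  have ht : 0 < (b i1 - rr a i1 ⬝ᵥ x) / (rr a i1 ⬝ᵥ h) := div_pos (by linarith) hi1.2
  refine ⟨_, ht, fun i => ?_, i1, hi1.2, ?_⟩
  · rw [dotProduct_add, dotProduct_smul, smul_eq_mul]
    rcases le_or_gt (rr a i ⬝ᵥ h) 0 with h2 | h2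
    · have := hx i
      have := mul_nonpos_of_nonneg_of_nonpos ht.le h2
      linarith
    · have h3 := hmin i (by simp [hU, h2])
      have h4 := mul_le_mul_of_nonneg_right h3 h2.le
      rw [div_mul_cancel₀ (b i - rr a i ⬝ᵥ x) h2.ne'] at h4
      linarith
  · rw [dotProduct_add, dotProduct_smul, smul_eq_mul, div_mul_cancel₀ _ hi1.2.ne']
    ring

omit [Fintype ι] in
theorem ply_free {h : Fin n → ℝ} (hx : x ∈ Ply a b) (hh : ∀ i, rr a i ⬝ᵥ h ≤ 0) {t : ℝ}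
    (ht : 0 ≤ t) : x + t • h ∈ Ply a b := by
  intro i
  rw [dotProduct_add, dotProduct_smul, smul_eq_mul]
  have := hx i
  have := mul_nonpos_of_nonneg_of_nonpos ht (hh i)
  linarith

theorem exists_small {h : Fin n → ℝ} (hx : x ∈ Ply a b)
    (hh : ∀ i ∈ tg a b x, rr a i ⬝ᵥ h ≤ 0) : ∃ t : ℝ, 0 < t ∧ x + t • h ∈ Ply a b := by
  by_cases hex : ∃ i, 0 < rr a i ⬝ᵥ h
  · obtain ⟨t, ht, h1, -⟩ := step_dir hx hh hex
    exact ⟨t, ht, h1⟩
  · push Not at hex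
    exact ⟨1, one_pos, ply_free hx hex zero_le_one⟩

omit [Fintype ι] in
theorem ply_between {t s : ℝ} {h : Fin n → ℝ} (hx : x ∈ Ply a b) (hy : x + t • h ∈ Ply a b)
    (hs : 0 ≤ s) (hst : s ≤ t) : x + s • h ∈ Ply a b := by
  intro i
  have h1 := hx i
  have h2 := hy i
  rw [dotProduct_add, dotProduct_smul, smul_eq_mul] at h2 ⊢
  rcases le_or_gt (rr a i ⬝ᵥ h) 0 with h3 | h3
  · have := mul_nonpos_of_nonneg_of_nonpos hs h3
    linarith
  · have := mul_le_mul_of_nonneg_right hst h3.le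
    linarith

/-- directions of edges are not improving where `p` is maximal -/
theorem ed_le {p : Fin n → ℝ} (hx : x ∈ Ply a b) (hp : ∀ z ∈ Ply a b, p ⬝ᵥ z ≤ p ⬝ᵥ x)
    {g : Fin n → ℤ} (hg : g ∈ Ed Δ a b x) : p ⬝ᵥ rv g ≤ 0 := by
  obtain ⟨t, ht, h1⟩ := exists_small hx hg.2.2.1
  have h2 := hp _ h1
  rw [dotProduct_add, dotProduct_smul, smul_eq_mul] at h2
  by_contra hcon
  push Not at hcon
  have := mul_pos ht hcon
  linarith

theorem max_of_ed (hΔ : MinorsLe a Δ) (hx : Vert a b x) {p : Fin n → ℝ}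
    (hp : ∀ g ∈ Ed Δ a b x, p ⬝ᵥ rv g ≤ 0) : ∀ z ∈ Ply a b, p ⬝ᵥ z ≤ p ⬝ᵥ x := by
  intro z hz
  by_contra hcon
  push Not at hcon
  obtain ⟨g, hg, h1⟩ := exists_ed hΔ hx hz hcon
  have := hp g hg
  linarith

theorem abs_dot_le {n : ℕ} {p g : Fin n → ℝ} {ρ δ : ℝ} (hp : ∀ j, |p j| ≤ ρ) (hg : ∀ j, |g j| ≤ δ) :
    |p ⬝ᵥ g| ≤ n * (ρ * δ) := by
  unfold dotProduct
  refine (Finset.abs_sum_le_sum_abs _ _).trans ?_
  calc ∑ j, |p j * g j| ≤ ∑ _j : Fin n, ρ * δ := by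
        refine Finset.sum_le_sum fun j _ => ?_
        rw [abs_mul]
        exact mul_le_mul (hp j) (hg j) (abs_nonneg _) ((abs_nonneg _).trans (hp j))
    _ = n * (ρ * δ) := by simp

theorem ed_abs {g : Fin n → ℤ} (hg : g ∈ Ed Δ a b x) (j : Fin n) : |rv g j| ≤ Δ := by
  have := hg.1 j
  unfold rv
  exact_mod_cast this

/-- a functional deep in the normal cone is maximal only at the vertex -/
theorem deep_unique (hΔ : MinorsLe a Δ) (hx : Vert a b x) {p : Fin n → ℝ} {δ : ℝ} (hδ : 0 < δ)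
    (hp : ∀ g ∈ Ed Δ a b x, p ⬝ᵥ rv g ≤ -δ) (hz : z ∈ Ply a b) (hpz : p ⬝ᵥ x ≤ p ⬝ᵥ z) :
    z = x := by
  by_contra hne
  have hne' : z - x ≠ 0 := sub_ne_zero.2 hne
  have hpos : 0 < (z - x) ⬝ᵥ (z - x) := by
    refine lt_of_le_of_ne ?_ (fun h => hne' (dotProduct_self_eq_zero.1 h.symm))
    unfold dotProduct
    exact Finset.sum_nonneg fun j _ => mul_self_nonneg _
  obtain ⟨ρ, hρ⟩ : ∃ ρ : ℝ, ∀ j, |(z - x) j| ≤ ρ := by
    refine ⟨∑ j, |(z - x) j|, fun j => ?_⟩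
    exact Finset.single_le_sum (f := fun j => |(z - x) j|) (fun i _ => abs_nonneg _)
      (Finset.mem_univ j)
  set R : ℝ := |(n : ℝ) * (ρ * Δ)| + 1 with hR
  have hR0 : 0 < R := by positivity
  set ε : ℝ := δ / R with hε
  have hε0 : 0 < ε := div_pos hδ hR0
  have h1 := max_of_ed hΔ hx (p := p + ε • (z - x)) (fun g hg => by
    rw [add_dotProduct, smul_dotProduct, smul_eq_mul]
    have h2 := hp g hg
    have h3 := abs_dot_le hρ (ed_abs hg)
    have h4 : (z - x) ⬝ᵥ rv g ≤ R := by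
      have := le_abs_self ((z - x) ⬝ᵥ rv g)
      have := le_abs_self ((n : ℝ) * (ρ * Δ))
      linarith
    have h5 : ε * ((z - x) ⬝ᵥ rv g) ≤ δ := by
      calc ε * ((z - x) ⬝ᵥ rv g) ≤ ε * R := mul_le_mul_of_nonneg_left h4 hε0.le
        _ = δ := by rw [hε, div_mul_cancel₀ _ hR0.ne']
    linarith) z hz
  rw [add_dotProduct, add_dotProduct, smul_dotProduct, smul_dotProduct, smul_eq_mul,
    smul_eq_mul] at h1
  have h2 : (z - x) ⬝ᵥ z - (z - x) ⬝ᵥ x = (z - x) ⬝ᵥ (z - x) := by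
    rw [← dotProduct_sub]
  have h3 := mul_pos hε0 hpos
  rw [← h2, mul_sub] at h3
  linarith

/-- the sum of tight rows with trivial common kernel is deep in the normal cone -/
theorem q_spec (hΔ : MinorsLe a Δ) {d : ℕ} (hdn : d ≤ n) {idx : Fin d → ι}
    (hidx : ∀ k, idx k ∈ tg a b x)
    (hker : ∀ h : Fin n → ℝ, (∀ k, rr a (idx k) ⬝ᵥ h = 0) → h = 0) :
    (∀ j, |(∑ k, a (idx k)) j| ≤ n * Δ) ∧ ∀ g ∈ Ed Δ a b x, (∑ k, a (idx k)) ⬝ᵥ g ≤ -1 := by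
  have ha : ∀ i j, |a i j| ≤ Δ := fun i j => by
    have := hΔ 1 (fun _ => i) (fun _ => j)
    simpa [Matrix.det_unique] using this
  refine ⟨fun j => ?_, fun g hg => ?_⟩
  · rw [Finset.sum_apply]
    calc |∑ k, a (idx k) j| ≤ ∑ k, |a (idx k) j| := Finset.abs_sum_le_sum_abs _ _
      _ ≤ ∑ _k : Fin d, (Δ : ℤ) := Finset.sum_le_sum fun k _ => ha _ _
      _ = d * Δ := by simp
      _ ≤ n * Δ := by
        have : (d : ℤ) ≤ n := by exact_mod_cast hdn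
        exact mul_le_mul_of_nonneg_right this (by positivity)
  · rw [sum_dotProduct]
    have h1 : ∀ k, a (idx k) ⬝ᵥ g ≤ 0 := fun k => by
      have := hg.2.2.1 _ (hidx k)
      rw [rr, rv_dot] at this
      exact_mod_cast this
    by_contra hcon
    push Not at hcon
    have h2 : ∑ k, a (idx k) ⬝ᵥ g = 0 := by
      have := Finset.sum_nonpos (s := Finset.univ) fun k _ => h1 k
      omega
    have h3 : ∀ k, a (idx k) ⬝ᵥ g = 0 := fun k =>
      (Finset.sum_eq_zero_iff_of_nonpos (fun k _ => h1 k)).1 h2 k (Finset.mem_univ k)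
    refine rv_ne_zero hg.2.1 (hker _ fun k => ?_)
    rw [rr, rv_dot, h3 k]; simp

/-- the sum of some tight rows is deep in the normal cone -/
theorem exists_q (hΔ : MinorsLe a Δ) (hx : Vert a b x) :
    ∃ q : Fin n → ℤ, (∀ j, |q j| ≤ n * Δ) ∧ ∀ g ∈ Ed Δ a b x, q ⬝ᵥ g ≤ -1 := by
  classical
  set S : Set (Fin n → ℝ) := {u | ∃ i ∈ tg a b x, u = rr a i} with hS
  obtain ⟨d, f, hdn, hf1, hf2⟩ : ∃ (d : ℕ) (f : Fin d → Fin n → ℝ), d ≤ n ∧ (∀ i, f i ∈ S) ∧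
      Submodule.span ℝ (Set.range f) = Submodule.span ℝ S := by
    obtain ⟨f, hf1, hf2, -⟩ := Submodule.exists_fun_fin_finrank_span_eq ℝ S
    refine ⟨_, f, ?_, hf1, hf2⟩
    have := Submodule.finrank_le (Submodule.span ℝ S)
    rwa [Module.finrank_fin_fun] at this
  choose idx hidx1 hidx2 using hf1
  obtain ⟨h1, h2⟩ := q_spec hΔ hdn hidx1 fun h hh => by
    have h5 : ∀ u ∈ Submodule.span ℝ (Set.range f), u ⬝ᵥ h = 0 := by
      intro u hu
      induction hu using Submodule.span_induction with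
      | mem x h =>
        obtain ⟨i, rfl⟩ := h
        rw [hidx2 i]
        exact hh i
      | zero => exact zero_dotProduct _
      | add x y _ _ hx hy => rw [add_dotProduct, hx, hy, add_zero]
      | smul c x _ hx => rw [smul_dotProduct, hx, smul_zero]
    refine hx.ker h fun i hi => h5 _ ?_
    rw [hf2]
    exact Submodule.subset_span ⟨i, hi, rfl⟩
  exact ⟨_, h1, h2⟩

end Pool.Agent.Q330.TU
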