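import Pool.Agent.Q330.TU.Path
set_option autoImplicit false

/-!
# Rounding the objective function
-/

namespace Pool.Agent.Q330.TU

open Matrix Finset

theorem exists_vert {ι : Type} [Fintype ι] {n : ℕ} {a : ι → Fin n → ℤ} {b : ι → ℝ}
    (hne : (Ply a b).Nonempty)
    (hker : ∀ h : Fin n → ℝ, (∀ i, rr a i ⬝ᵥ h = 0) → h = 0) : ∃ x, Vert a b x := by
  classical
  set S : Set ℕ := {k | ∃ x ∈ Ply a b, (tg a b x).card = k} with hS
  have hS1 : S.Nonempty := by
    obtain ⟨x, hx⟩ := hne
    exact ⟨_, x, hx, rfl⟩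
  have hbd : BddAbove S := ⟨Fintype.card ι, by
    rintro k ⟨g, -, rfl⟩
    exact Finset.card_le_univ _⟩
  obtain ⟨x, hx, hk⟩ := Nat.sSup_mem hS1 hbd
  refine ⟨x, hx, ?_⟩
  by_contra hcon
  push Not at hcon
  obtain ⟨h, hh, h0⟩ := hcon
  obtain ⟨i0, hi0⟩ : ∃ i, rr a i ⬝ᵥ h ≠ 0 := by
    by_contra hc
    push Not at hc
    exact h0 (hker h hc)
  obtain ⟨z, hz1, hz2⟩ : ∃ z : Fin n → ℝ, (∀ i ∈ tg a b x, rr a i ⬝ᵥ z = 0) ∧
      ∃ i, 0 < rr a i ⬝ᵥ z := by
    rcases lt_or_gt_of_ne hi0 with h1 | h1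
    · refine ⟨-h, fun i hi => ?_, i0, ?_⟩
      · rw [dotProduct_neg, hh i hi, neg_zero]
      · rw [dotProduct_neg]; linarith
    · exact ⟨h, hh, i0, h1⟩
  obtain ⟨t, ht, h1, i1, hi1, h2⟩ := step_dir hx (fun i hi => (hz1 i hi).le) hz2
  have h3 : (tg a b (x + t • z)).card ∈ S := ⟨_, h1, rfl⟩
  have h4 := le_csSup hbd h3
  rw [← hk] at h4
  have h5 : tg a b x ⊂ tg a b (x + t • z) := by
    rw [Finset.ssubset_iff_of_subset]
    · refine ⟨i1, mem_tg.2 h2, fun h => ?_⟩
      have := hz1 i1 h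
      linarith
    · intro i hi
      rw [mem_tg, dotProduct_add, dotProduct_smul, hz1 i hi, smul_zero, add_zero]
      exact mem_tg.1 hi
  have := Finset.card_lt_card h5
  omega

/-- `n` independent tight rows -/
theorem exists_basis {ι : Type} [Fintype ι] {n : ℕ} {a : ι → Fin n → ℤ} {b : ι → ℝ}
    {x : Fin n → ℝ} (hx : Vert a b x) :
    ∃ idx : Fin n → ι, (∀ k, idx k ∈ tg a b x) ∧ (Matrix.of fun k => a (idx k)).det ≠ 0 := by
  classical
  set S : Set (Fin n → ℝ) := {u | ∃ i ∈ tg a b x, u = rr a i} with hS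
  obtain ⟨d, f, hdn, hf1, hf2, hf3⟩ : ∃ (d : ℕ) (f : Fin d → Fin n → ℝ), d = n ∧
      (∀ i, f i ∈ S) ∧ Submodule.span ℝ (Set.range f) = Submodule.span ℝ S ∧
      LinearIndependent ℝ f := by
    obtain ⟨f, hf1, hf2, hf3⟩ := Submodule.exists_fun_fin_finrank_span_eq ℝ S
    refine ⟨_, f, ?_, hf1, hf2, hf3⟩
    refine le_antisymm ?_ ?_
    · have := Submodule.finrank_le (Submodule.span ℝ S)
      rwa [Module.finrank_fin_fun] at this
    · have hker : LinearMap.ker (Matrix.of f).mulVecLin = ⊥ := by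
        rw [eq_bot_iff]
        intro h hh
        rw [LinearMap.mem_ker] at hh
        rw [Submodule.mem_bot]
        have h1 : ∀ k, f k ⬝ᵥ h = 0 := fun k => by
          have := congrFun hh k
          simpa [Matrix.mulVec] using this
        have h2 : ∀ u ∈ Submodule.span ℝ (Set.range f), u ⬝ᵥ h = 0 := by
          intro u hu
          induction hu using Submodule.span_induction with
          | mem x h =>
            obtain ⟨i, rfl⟩ := h
            exact h1 i
          | zero => exact zero_dotProduct _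
          | add x y _ _ hx hy => rw [add_dotProduct, hx, hy, add_zero]
          | smul c x _ hx => rw [smul_dotProduct, hx, smul_zero]
        refine hx.ker h fun i hi => h2 _ ?_
        rw [hf2]
        exact Submodule.subset_span ⟨i, hi, rfl⟩
      have h1 := LinearMap.finrank_range_add_finrank_ker (Matrix.of f).mulVecLin
      rw [hker, finrank_bot, Module.finrank_fin_fun] at h1
      have h2 := Submodule.finrank_le (LinearMap.range (Matrix.of f).mulVecLin)
      rw [Module.finrank_fin_fun] at h2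
      omega
  subst hdn
  choose idx hidx1 hidx2 using hf1
  refine ⟨idx, hidx1, fun h0 => ?_⟩
  have h1 : IsUnit (Matrix.of f) := Matrix.linearIndependent_rows_iff_isUnit.1 hf3
  have h2 := ((Matrix.isUnit_iff_isUnit_det _).1 h1).ne_zero
  apply h2
  have h3 := (Int.castRingHom ℝ).map_det (Matrix.of fun k => a (idx k))
  rw [h0, map_zero] at h3
  rw [show (Matrix.of f) = (Int.castRingHom ℝ).mapMatrix (Matrix.of fun k => a (idx k)) from ?_]
  · exact h3.symm
  · ext i j
    rw [Matrix.of_apply, hidx2 i]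
    rfl

/-- **Rounding.** -/
theorem exists_round {n Δ : ℕ} (hΔ1 : 1 ≤ Δ) (c : Fin n → ℝ) :
    ∃ c' : Fin n → ℤ, (∀ j, |c' j| ≤ (n.factorial * Δ ^ n : ℕ)) ∧
      ∀ g : Fin n → ℤ, (∀ j, |g j| ≤ Δ) → (0 < c ⬝ᵥ rv g ↔ 0 < rv c' ⬝ᵥ rv g) := by
  classical
  set G : Finset (Fin n → ℤ) :=
    Fintype.piFinset fun _ : Fin n => Finset.Icc (-(Δ : ℤ)) Δ with hG
  have memG : ∀ g : Fin n → ℤ, g ∈ G ↔ ∀ j, |g j| ≤ Δ := fun g => by
    rw [hG, Fintype.mem_piFinset]
    refine forall_congr' fun j => ?_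
    rw [Finset.mem_Icc, abs_le]
  set a' : G → Fin n → ℤ := fun g => if 0 < c ⬝ᵥ rv (g : Fin n → ℤ) then -(g : Fin n → ℤ)
    else (g : Fin n → ℤ) with ha'
  set β : G → ℤ := fun g => if c ⬝ᵥ rv (g : Fin n → ℤ) = 0 then 0 else -1 with hβ
  set b' : G → ℝ := fun g => ((β g : ℤ) : ℝ) with hb'
  have rv_neg : ∀ g : Fin n → ℤ, rv (-g) = -rv g := fun g => by funext j; simp [rv]
  -- nonempty
  have hne : (Ply a' b').Nonempty := by
    set lam : ℝ := ∑ g ∈ G, |1 / (c ⬝ᵥ rv g)| with hlam
    have hl : ∀ g ∈ G, c ⬝ᵥ rv g ≠ 0 → 1 ≤ lam * |c ⬝ᵥ rv g| := by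
      intro g hg h0
      have h1 : |1 / (c ⬝ᵥ rv g)| ≤ lam :=
        Finset.single_le_sum (f := fun g => |1 / (c ⬝ᵥ rv g)|) (fun i _ => abs_nonneg _) hg
      have h2 : 0 < |c ⬝ᵥ rv g| := abs_pos.2 h0
      calc (1 : ℝ) = |1 / (c ⬝ᵥ rv g)| * |c ⬝ᵥ rv g| := by
            rw [← abs_mul, one_div_mul_cancel h0, abs_one]
        _ ≤ lam * |c ⬝ᵥ rv g| := mul_le_mul_of_nonneg_right h1 h2.le
    refine ⟨lam • c, fun g => ?_⟩
    rw [dotProduct_smul, smul_eq_mul, dotProduct_comm]
    simp only [rr, ha', hb', hβ]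
    split_ifs with h1 h2 h3
    · rw [h2] at h1
      exact absurd h1 (lt_irrefl _)
    · have := hl g g.2 h2
      rw [abs_of_pos h1] at this
      rw [rv_neg, dotProduct_neg]
      push_cast
      linarith
    · rw [h3]; simp
    · have h4 : c ⬝ᵥ rv (g : Fin n → ℤ) < 0 := lt_of_le_of_ne (not_lt.1 h1) h3
      have := hl g g.2 h3
      rw [abs_of_neg h4] at this
      push_cast
      linarith
  obtain ⟨y, hy⟩ := exists_vert hne fun h hh => by
    funext j
    have he : (Pi.single j 1 : Fin n → ℤ) ∈ G := by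
      rw [memG]
      intro i
      have : (1 : ℤ) ≤ Δ := by exact_mod_cast hΔ1
      by_cases hij : i = j
      · subst hij; simpa using this
      · rw [Pi.single_eq_of_ne hij]; simp
    have h1 := hh ⟨_, he⟩
    have h2 : rv (Pi.single j 1 : Fin n → ℤ) ⬝ᵥ h = h j := by
      have : rv (Pi.single j 1 : Fin n → ℤ) = Pi.single j 1 := by
        funext i
        unfold rv
        by_cases hij : i = j
        · subst hij; simp
        · simp [Pi.single_eq_of_ne hij]
      rw [this, single_one_dotProduct]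
    simp only [rr, ha'] at h1
    split_ifs at h1
    · rw [rv_neg, neg_dotProduct, h2] at h1
      simpa using h1
    · rw [h2] at h1
      simpa using h1
  obtain ⟨idx, hidx, hdet⟩ := exists_basis hy
  set M : Matrix (Fin n) (Fin n) ℤ := Matrix.of fun k => a' (idx k) with hM
  set w : Fin n → ℤ := Matrix.cramer M (fun k => β (idx k)) with hw
  -- the vertex
  have hwy : rv w = (M.det : ℝ) • y := by
    have h1 : M *ᵥ w = M.det • (fun k => β (idx k)) := Matrix.mulVec_cramer _ _
    have hunit : IsUnit (M.map (Int.cast : ℤ → ℝ)) := by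
      rw [Matrix.isUnit_iff_isUnit_det]
      have h3 := (Int.castRingHom ℝ).map_det M
      have h4 : (M.map (Int.cast : ℤ → ℝ)).det = ((M.det : ℤ) : ℝ) := by
        rw [← eq_intCast (Int.castRingHom ℝ), h3]
        rfl
      rw [h4]
      exact isUnit_iff_ne_zero.2 (by exact_mod_cast hdet)
    apply Matrix.mulVec_injective_of_isUnit hunit
    funext k
    have h2 := congrFun h1 k
    rw [Matrix.mulVec_smul, Pi.smul_apply]
    have h5 : ((M.map (Int.cast : ℤ → ℝ)) *ᵥ y) k = b' (idx k) := mem_tg.1 (hidx k)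
    rw [h5]
    have h6 : ((M.map (Int.cast : ℤ → ℝ)) *ᵥ rv w) k = ((M *ᵥ w) k : ℤ) := by
      simp [Matrix.mulVec, dotProduct, rv]
    rw [h6, h2]
    simp [hb']
  set c' : Fin n → ℤ := fun j => Int.sign M.det * w j with hc'
  have hc'y : rv c' = |(M.det : ℝ)| • y := by
    have h1 : rv c' = ((Int.sign M.det : ℤ) : ℝ) • rv w := by
      funext j; simp [rv, hc']
    rw [h1, hwy, smul_smul]
    congr 1
    have := Int.sign_mul_self_eq_abs M.det
    have h2 : (((Int.sign M.det * M.det : ℤ)) : ℝ) = ((|M.det| : ℤ) : ℝ) := by rw [this]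
    rw [Int.cast_mul, Int.cast_abs] at h2
    exact h2
  have hdpos : 0 < |(M.det : ℝ)| := abs_pos.2 (by exact_mod_cast hdet)
  refine ⟨c', fun j => ?_, fun g hg => ?_⟩
  · have h1 : |c' j| = |w j| := by
      rw [hc']
      simp only [abs_mul]
      rw [show |Int.sign M.det| = 1 from ?_, one_mul]
      rcases lt_or_gt_of_ne hdet with h | h
      · rw [Int.sign_eq_neg_one_of_neg h]; rfl
      · rw [Int.sign_eq_one_of_pos h]; rfl
    rw [h1, hw, Matrix.cramer_apply]
    have h2 := Matrix.det_le (A := M.updateCol j fun k => β (idx k)) (abv := AbsoluteValue.abs)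
      (x := (Δ : ℤ)) (by
        intro p r
        rw [Matrix.updateCol_apply]
        have hΔ' : (1 : ℤ) ≤ Δ := by exact_mod_cast hΔ1
        split_ifs
        · simp only [hβ]
          split_ifs
          · simp
          · simpa using hΔ'
        · have h3 := (memG _).1 (idx p).2 r
          simp only [hM, Matrix.of_apply, ha']
          split_ifs
          · rw [Pi.neg_apply]
            change |-(_ : ℤ)| ≤ _
            rw [abs_neg]
            exact h3
          · exact h3)
    rw [Fintype.card_fin] at h2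
    push_cast
    rw [nsmul_eq_mul] at h2
    exact h2
  · rw [hc'y, smul_dotProduct, smul_eq_mul]
    have h1 := hy.mem ⟨g, (memG g).2 hg⟩
    simp only [rr, ha', hb', hβ] at h1
    constructor
    · intro h
      rw [if_pos h, if_neg h.ne', rv_neg, neg_dotProduct, dotProduct_comm] at h1
      push_cast at h1
      exact mul_pos hdpos (by linarith)
    · intro h
      by_contra hcon
      rw [if_neg hcon, dotProduct_comm] at h1
      have h2 := (mul_pos_iff_of_pos_left hdpos).1 h
      split_ifs at h1 <;> push_cast at h1 <;> linarith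

end Pool.Agent.Q330.TU
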