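import Pool.Agent.Q330.TU.Poly
set_option autoImplicit false

/-!
# Edges, and one step of the shadow vertex method
-/

namespace Pool.Agent.Q330.TU

open Matrix Finset

variable {ι : Type} [Fintype ι] {n : ℕ} {a : ι → Fin n → ℤ} {b : ι → ℝ} {Δ : ℕ}
  {x y z : Fin n → ℝ}

/-- the functional `u` -/
noncomputable def dotL (u : Fin n → ℝ) : StrongDual ℝ (Fin n → ℝ) :=
  ∑ j, u j • ContinuousLinearMap.proj (R := ℝ) (φ := fun _ : Fin n => ℝ) j

theorem dotL_apply (u x : Fin n → ℝ) : dotL u x = u ⬝ᵥ x := by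
  simp [dotL, dotProduct]

theorem Vert.extreme (hx : Vert a b x) : x ∈ (Ply a b).extremePoints ℝ := by
  refine ⟨hx.mem, fun y hy z hz hyz => ?_⟩
  obtain ⟨s, t, hs, ht, hst, h⟩ := hyz
  have h1 := hx.ker (y - x) fun i hi => by
    have e1 := ply_sub_le hy hi
    have e2 := ply_sub_le hz hi
    have e3 : s • (y - x) + t • (z - x) = 0 := by
      rw [smul_sub, smul_sub, sub_add_sub_comm, h, ← add_smul, hst, one_smul, sub_self]
    have e4 := congrArg (fun u => rr a i ⬝ᵥ u) e3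
    simp only [dotProduct_add, dotProduct_smul, dotProduct_zero, smul_eq_mul] at e4
    have e5 := mul_nonpos_of_nonneg_of_nonpos hs.le e1
    have e6 := mul_nonpos_of_nonneg_of_nonpos ht.le e2
    have e7 : s * (rr a i ⬝ᵥ (y - x)) = 0 := by linarith
    rcases mul_eq_zero.1 e7 with h | h
    · exact absurd h hs.ne'
    · exact h
  exact sub_eq_zero.1 h1

theorem vert_of_extreme (hx : x ∈ (Ply a b).extremePoints ℝ) : Vert a b x := by
  refine ⟨hx.1, fun h hh => ?_⟩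
  obtain ⟨t1, ht1, h1⟩ := exists_small (h := h) hx.1 fun i hi => (hh i hi).le
  obtain ⟨t2, ht2, h2⟩ := exists_small (h := -h) hx.1 fun i hi => by
    rw [dotProduct_neg, hh i hi, neg_zero]
  set t := min t1 t2 with ht
  have htpos : 0 < t := lt_min ht1 ht2
  have h3 := ply_between hx.1 h1 htpos.le (min_le_left _ _)
  have h4 := ply_between hx.1 h2 htpos.le (min_le_right _ _)
  have h5 := hx.2 h3 h4 ⟨1/2, 1/2, by norm_num, by norm_num, by norm_num, by
    funext j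
    simp
    ring⟩
  have h6 : t • h = 0 := by
    have := congrArg (fun u => u - x) h5
    simpa using this
  rcases smul_eq_zero.1 h6 with h | h
  · exact absurd h htpos.ne'
  · exact h

omit [Fintype ι] in
theorem convex_ply : Convex ℝ (Ply a b) := by
  intro x hx y hy s t hs ht hst i
  rw [dotProduct_add, dotProduct_smul, dotProduct_smul, smul_eq_mul, smul_eq_mul]
  calc s * (rr a i ⬝ᵥ x) + t * (rr a i ⬝ᵥ y) ≤ s * b i + t * b i :=
        add_le_add (mul_le_mul_of_nonneg_left (hx i) hs) (mul_le_mul_of_nonneg_left (hy i) ht)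
    _ = b i := by rw [← add_mul, hst, one_mul]

/-- some tight row decreases in an extreme direction -/
theorem exists_neg (hx : Vert a b x) {g : Fin n → ℤ} (hg : g ∈ Ed Δ a b x) :
    ∃ i ∈ tg a b x, rr a i ⬝ᵥ rv g < 0 := by
  by_contra hcon
  push Not at hcon
  exact rv_ne_zero hg.2.1 (hx.ker _ fun i hi => le_antisymm (hg.2.2.1 i hi) (hcon i hi))

/-- the points of the line of an edge -/
theorem exposed_aux (hx : Vert a b x) {g : Fin n → ℤ} (hg : g ∈ Ed Δ a b x) :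
    ∃ u : Fin n → ℝ, {z | z ∈ Ply a b ∧ ∀ y ∈ Ply a b, dotL u y ≤ dotL u z} =
      {z | z ∈ Ply a b ∧ ∃ s : ℝ, 0 ≤ s ∧ z = x + s • rv g} := by
  classical
  set Z := (tg a b x).filter fun i => rr a i ⬝ᵥ rv g = 0 with hZ
  set u : Fin n → ℝ := ∑ i ∈ Z, rr a i with hu
  have hux : ∀ z ∈ Ply a b, u ⬝ᵥ z ≤ u ⬝ᵥ x := by
    intro z hz
    rw [hu, sum_dotProduct, sum_dotProduct]
    refine Finset.sum_le_sum fun i hi => ?_
    have := ply_sub_le hz (Finset.mem_filter.1 hi).1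
    rw [dotProduct_sub] at this
    linarith
  refine ⟨u, ?_⟩
  ext z
  simp only [Set.mem_ofPred_eq, dotL_apply]
  refine and_congr_right fun hz => ⟨fun h => ?_, ?_⟩
  · have h1 : u ⬝ᵥ z = u ⬝ᵥ x := le_antisymm (hux z hz) (h x hx.mem)
    have h2 : ∑ i ∈ Z, rr a i ⬝ᵥ (z - x) = 0 := by
      rw [← sum_dotProduct, ← hu, dotProduct_sub, h1, sub_self]
    have h3 : ∀ i ∈ Z, rr a i ⬝ᵥ (z - x) = 0 :=
      (Finset.sum_eq_zero_iff_of_nonpos fun i hi =>
        ply_sub_le hz (Finset.mem_filter.1 hi).1).1 h2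
    obtain ⟨s, hs⟩ := hg.2.2.2 (z - x) fun i hi h0 => h3 i (Finset.mem_filter.2 ⟨hi, h0⟩)
    refine ⟨s, ?_, by rw [← hs]; abel⟩
    obtain ⟨i, hi, h4⟩ := exists_neg hx hg
    have h5 := ply_sub_le hz hi
    rw [hs, dotProduct_smul, smul_eq_mul] at h5
    by_contra hcon
    push Not at hcon
    have := mul_pos_of_neg_of_neg hcon h4
    linarith
  · rintro ⟨s, -, rfl⟩ y hy
    have h1 : u ⬝ᵥ (x + s • rv g) = u ⬝ᵥ x := by
      rw [dotProduct_add, dotProduct_smul, hu, sum_dotProduct, sum_dotProduct]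
      rw [Finset.sum_eq_zero (f := fun i => rr a i ⬝ᵥ rv g) fun i hi => (Finset.mem_filter.1 hi).2]
      simp
    rw [h1]
    exact hux y hy

/-- an unbounded edge -/
theorem edge_unbounded (hx : Vert a b x) {g : Fin n → ℤ} (hg : g ∈ Ed Δ a b x)
    (h : ∀ i, rr a i ⬝ᵥ rv g ≤ 0) :
    IsExposed ℝ (Ply a b) {z | ∃ t : ℝ, 0 ≤ t ∧ z = x + t • rv g} := by
  intro _
  obtain ⟨u, hu⟩ := exposed_aux hx hg
  refine ⟨dotL u, ?_⟩
  have h1 : {z | ∃ t : ℝ, 0 ≤ t ∧ z = x + t • rv g} =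
      {z | z ∈ Ply a b ∧ ∃ s : ℝ, 0 ≤ s ∧ z = x + s • rv g} := by
    ext z
    simp only [Set.mem_ofPred_eq]
    constructor
    · rintro ⟨t, ht, rfl⟩
      exact ⟨ply_free hx.mem h ht, t, ht, rfl⟩
    · rintro ⟨_, h⟩
      exact h
  rw [h1, ← hu]

/-- a bounded edge -/
theorem edge_bounded (hx : Vert a b x) {g : Fin n → ℤ} (hg : g ∈ Ed Δ a b x)
    (h : ∃ i, 0 < rr a i ⬝ᵥ rv g) :
    ∃ t : ℝ, 0 < t ∧ Vert a b (x + t • rv g) ∧
      IsExposed ℝ (Ply a b) (segment ℝ x (x + t • rv g)) := by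
  obtain ⟨t, ht, h1, i1, hi1, h2⟩ := step_dir hx.mem hg.2.2.1 h
  refine ⟨t, ht, ⟨h1, fun h hh => ?_⟩, fun _ => ?_⟩
  · obtain ⟨s, hs⟩ := hg.2.2.2 h fun i hi h0 => hh i (mem_tg.2 (by
      rw [dotProduct_add, dotProduct_smul, h0, smul_zero, add_zero, mem_tg.1 hi]))
    have h3 := hh i1 (mem_tg.2 h2)
    rw [hs, dotProduct_smul, smul_eq_mul] at h3
    rcases mul_eq_zero.1 h3 with h | h
    · rw [hs, h, zero_smul]
    · exact absurd h hi1.ne'
  · obtain ⟨u, hu⟩ := exposed_aux hx hg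
    refine ⟨dotL u, ?_⟩
    have h3 : segment ℝ x (x + t • rv g) =
        {z | z ∈ Ply a b ∧ ∃ s : ℝ, 0 ≤ s ∧ z = x + s • rv g} := by
      ext z
      simp only [Set.mem_ofPred_eq]
      constructor
      · intro hz
        have hzP := (convex_ply (a := a) (b := b)).segment_subset hx.mem h1 hz
        rw [segment_eq_image'] at hz
        obtain ⟨θ, hθ, rfl⟩ := hz
        refine ⟨hzP, θ * t, mul_nonneg hθ.1 ht.le, ?_⟩
        simp only [add_sub_cancel_left, smul_smul]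
      · rintro ⟨hz, s, hs, rfl⟩
        rw [segment_eq_image']
        have hst : s ≤ t := by
          have h4 := hz i1
          rw [← h2, dotProduct_add, dotProduct_add, dotProduct_smul, dotProduct_smul,
            smul_eq_mul, smul_eq_mul] at h4
          by_contra hcon
          push Not at hcon
          have := mul_lt_mul_of_pos_right hcon hi1
          linarith
        refine ⟨s / t, ⟨div_nonneg hs ht.le, (div_le_one ht).2 hst⟩, ?_⟩
        simp only [add_sub_cancel_left]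
        rw [smul_smul, div_mul_cancel₀ _ ht.ne']
    rw [h3, ← hu]

/-- **One step of the shadow vertex method.** -/
theorem shadow_step (hΔ : MinorsLe a Δ) (hx : Vert a b x) {c d : Fin n → ℤ} {D : ℕ}
    (hd : ∀ j, |d j| ≤ D) {μ : ℝ}
    (hmax : ∀ z ∈ Ply a b, (rv c + μ • rv d) ⬝ᵥ z ≤ (rv c + μ • rv d) ⬝ᵥ x)
    (hμ : 0 < μ) (hc : ∃ z ∈ Ply a b, rv c ⬝ᵥ x < rv c ⬝ᵥ z) :
    ∃ g ∈ Ed Δ a b x, ∃ μ' : ℝ, 0 < μ' ∧ μ' ≤ μ ∧ 0 < rv c ⬝ᵥ rv g ∧
      (rv c + μ' • rv d) ⬝ᵥ rv g = 0 ∧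
      (∀ z ∈ Ply a b, (rv c + μ' • rv d) ⬝ᵥ z ≤ (rv c + μ' • rv d) ⬝ᵥ x) ∧
      1 ≤ μ' * (n * (D * Δ)) := by
  classical
  set G := (ed_finite (Δ := Δ) (a := a) (b := b) (x := x)).toFinset.filter
    fun g => 0 < rv c ⬝ᵥ rv g with hG
  have memG : ∀ g, g ∈ G ↔ g ∈ Ed Δ a b x ∧ 0 < rv c ⬝ᵥ rv g := fun g => by
    rw [hG, Finset.mem_filter, Set.Finite.mem_toFinset]
  have hle : ∀ g ∈ Ed Δ a b x, rv c ⬝ᵥ rv g + μ * (rv d ⬝ᵥ rv g) ≤ 0 := fun g hg => by
    have := ed_le hx.mem hmax hg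
    rwa [add_dotProduct, smul_dotProduct, smul_eq_mul] at this
  have hdneg : ∀ g ∈ G, rv d ⬝ᵥ rv g < 0 := fun g hg => by
    have h1 := hle g ((memG g).1 hg).1
    have h2 := ((memG g).1 hg).2
    by_contra hcon
    push Not at hcon
    have := mul_nonneg hμ.le hcon
    linarith
  obtain ⟨z, hz, hcz⟩ := hc
  obtain ⟨g0, hg0, h0⟩ := exists_ed hΔ hx hz hcz
  obtain ⟨g, hg, hmaxg⟩ := Finset.exists_max_image G
    (fun g => (rv c ⬝ᵥ rv g) / (-(rv d ⬝ᵥ rv g))) ⟨g0, (memG g0).2 ⟨hg0, h0⟩⟩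
  have hcg := ((memG g).1 hg).2
  have hdg := hdneg g hg
  have hdg' : 0 < -(rv d ⬝ᵥ rv g) := by linarith
  set μ' := (rv c ⬝ᵥ rv g) / (-(rv d ⬝ᵥ rv g)) with hμ'
  have hμ'0 : 0 < μ' := div_pos hcg hdg'
  have hμ'c : rv c ⬝ᵥ rv g = μ' * (-(rv d ⬝ᵥ rv g)) := by
    rw [hμ', div_mul_cancel₀ _ hdg'.ne']
  have hμ'μ : μ' ≤ μ := by
    rw [hμ', div_le_iff₀ hdg']
    have := hle g ((memG g).1 hg).1
    linarith
  refine ⟨g, ((memG g).1 hg).1, μ', hμ'0, hμ'μ, hcg, ?_, ?_, ?_⟩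
  · rw [add_dotProduct, smul_dotProduct, smul_eq_mul]
    linarith
  · refine max_of_ed hΔ hx fun g' hg' => ?_
    rw [add_dotProduct, smul_dotProduct, smul_eq_mul]
    rcases lt_or_ge 0 (rv c ⬝ᵥ rv g') with h | h
    · have h1 := (memG g').2 ⟨hg', h⟩
      have h2 := hmaxg g' h1
      have h3 := hdneg g' h1
      rw [div_le_iff₀ (by linarith)] at h2
      linarith
    · rcases le_or_gt (rv d ⬝ᵥ rv g') 0 with h1 | h1
      · have := mul_nonpos_of_nonneg_of_nonpos hμ'0.le h1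
        linarith
      · have := hle g' hg'
        have := mul_le_mul_of_nonneg_right hμ'μ h1.le
        linarith
  · have h1 : (1 : ℝ) ≤ rv c ⬝ᵥ rv g := by
      rw [rv_dot] at hcg ⊢
      have : 0 < c ⬝ᵥ g := by exact_mod_cast hcg
      exact_mod_cast this
    have h2 : -(rv d ⬝ᵥ rv g) ≤ n * (D * Δ) := by
      have h3 := abs_dot_le (p := rv d) (g := rv g) (ρ := D) (δ := Δ) (fun j => by
        have := hd j
        unfold rv
        exact_mod_cast this) (ed_abs ((memG g).1 hg).1)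
      have := neg_abs_le (rv d ⬝ᵥ rv g)
      linarith
    calc (1 : ℝ) ≤ rv c ⬝ᵥ rv g := h1
      _ = μ' * (-(rv d ⬝ᵥ rv g)) := hμ'c
      _ ≤ μ' * (n * (D * Δ)) := mul_le_mul_of_nonneg_left h2 hμ'0.le

end Pool.Agent.Q330.TU
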